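import Mathlib.Probability.ProductMeasure
import Pool.Agent.Lib.helper92.ForcingDefs

/-! The sentence `ω* can be covered by nowhere dense P-sets` and the random forcing. -/

open MeasureTheory ProbabilityTheory

namespace Pool.Agent.MP_deb3c6_lc

open Pool.Agent.Forcing92 Fml

variable {V : Type 1}

/-- `U` is a nonprincipal ultrafilter on `w` -/
def ult (w U : V) : Fml V :=
  and (allIn U fun X => and (sub X w) (neg (emp X)))
  (and (allIn U fun X => all fun Y => imp (and (sub X Y) (sub Y w)) (mem Y U))
  (and (allIn U fun X => allIn U fun Y => exIn U fun Z => and (sub Z X) (sub Z Y))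
  (and (all fun X => imp (sub X w)
    (or (mem X U) (exIn U fun Y => allIn Y fun n => neg (mem n X))))
  (allIn w fun n => exIn U fun X => neg (mem n X)))))

/-- the basic clopen set `X* = {W ∈ w* | X ∈ W}` is contained in `S` -/
def star (w X S : V) : Fml V := all fun W => imp (and (ult w W) (mem X W)) (mem W S)

/-- `O` is an open subset of `w*` -/
def opn (w O : V) : Fml V := allIn O fun U => and (ult w U) (exIn U fun X => star w X O)

/-- `F` is a closed subset of `w*` -/
def cls (w F : V) : Fml V :=
  and (allIn F fun U => ult w U) (all fun U => imp (and (ult w U) (neg (mem U F)))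
    (exIn U fun X => allIn F fun W => neg (mem X W)))

/-- `F` has empty interior in `w*` -/
def nwd (w F : V) : Fml V := allIn F fun U => allIn U fun X => neg (star w X F)

/-- for every sequence `s` of open sets containing `F`, `F` lies in the interior of their
intersection -/
def pset (w F : V) : Fml V :=
  all fun s => imp
    (allIn w fun n => all fun O => imp (app s n O)
      (and (and (opn w O) (sub F O)) (all fun O' => imp (app s n O') (eq O O'))))
    (allIn F fun U => exIn U fun X => allIn w fun n => all fun O => imp (app s n O) (star w X O))

/-- `ω*` is the union of a family of closed nowhere dense P-sets -/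
def covered : Fml V :=
  ex fun w => and (omega w) (ex fun C =>
    and (allIn C fun F => and (cls w F) (and (nwd w F) (pset w F)))
      (all fun U => imp (ult w U) (exIn C fun F => mem U F)))

/-- the fair coin product measure on `2 ^ (ι × ω)` -/
noncomputable def coin (ι : Type) : Measure (ι × ℕ → Bool) :=
  Measure.infinitePi fun _ => uniformOn Set.univ

/-- conditions of random forcing: Borel sets which are not null -/
def Cond (ι : Type) : Type :=
  {s : Set (ι × ℕ → Bool) // MeasurableSet[borel (ι × ℕ → Bool)] s ∧ coin ι s ≠ 0}

/-- the order: inclusion modulo null sets -/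
def cle (ι : Type) (p q : Cond ι) : Prop := coin ι (p.1 \ q.1) = 0

end Pool.Agent.MP_deb3c6_lc
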