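import Mathlib.Algebra.Notation.Lemmas
import Mathlib.Algebra.Order.Ring.Star
import Mathlib.MeasureTheory.Measure.Typeclasses.SFinite
import Mathlib.Order.CompletePartialOrder
import Mathlib.SetTheory.ZFC.PSet
import Mathlib.Tactic.Monotonicity.Lemmas
import Mathlib.Data.Nat.Nth
import Mathlib.MeasureTheory.Function.ConditionalLExpectation
import Mathlib.Topology.Separation.CompletelyRegular
import Mathlib.CategoryTheory.Countable
import Mathlib.MeasureTheory.MeasurableSpace.Card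
import Mathlib.Probability.Independence.InfinitePi
import Pool.Agent.MP_deb3c6_lc.Defs
import Pool.Agent.Lib.helper92.Forcing

-- ======== part 0: formerly Pool.Agent.MP_deb3c6_lc.RS
section MrgPart0

/-! Random subsets of `ℕ`, measure-algebra valued ultrafilters, and their existence. -/

open MeasureTheory Set Filter

namespace Pool.Agent.MP_deb3c6_lc

/-- random subsets of `ℕ` -/
@[ext] structure RS (Ω : Type) [MeasurableSpace Ω] where
  ev : ℕ → Set Ω
  meas : ∀ n, MeasurableSet (ev n)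

variable {Ω : Type} [MeasurableSpace Ω]

namespace RS

def sl (E : RS Ω) (ω : Ω) : Set ℕ := {n | ω ∈ E.ev n}
def inter (E F : RS Ω) : RS Ω := ⟨fun n => E.ev n ∩ F.ev n, fun n => (E.meas n).inter (F.meas n)⟩
def compl (E : RS Ω) : RS Ω := ⟨fun n => (E.ev n)ᶜ, fun n => (E.meas n).compl⟩
def univ : RS Ω := ⟨fun _ => Set.univ, fun _ => MeasurableSet.univ⟩

@[simp] theorem mem_sl {E : RS Ω} {ω : Ω} {n : ℕ} : n ∈ E.sl ω ↔ ω ∈ E.ev n := Iff.rfl
@[simp] theorem sl_inter (E F : RS Ω) (ω : Ω) : (E.inter F).sl ω = E.sl ω ∩ F.sl ω := rfl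
@[simp] theorem sl_compl (E : RS Ω) (ω : Ω) : E.compl.sl ω = (E.sl ω)ᶜ := rfl
@[simp] theorem sl_univ (ω : Ω) : (univ : RS Ω).sl ω = Set.univ := rfl

theorem ext_sl {E F : RS Ω} (h : ∀ ω, E.sl ω = F.sl ω) : E = F := by
  ext n ω
  exact Set.ext_iff.1 (h ω) n

theorem finite_iff {s : Set ℕ} : s.Finite ↔ ∃ N, ∀ n, N ≤ n → n ∉ s := by
  constructor
  · intro h
    obtain ⟨N, hN⟩ := h.bddAbove
    exact ⟨N + 1, fun n hn hs => by have := hN hs; omega⟩
  · rintro ⟨N, hN⟩
    refine (Set.finite_lt_nat N).subset fun n hn => ?_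
    by_contra h
    exact hN n (not_lt.1 h) hn

theorem measurableSet_finite (E : RS Ω) : MeasurableSet {ω | (E.sl ω).Finite} := by
  have : {ω | (E.sl ω).Finite} = ⋃ N, ⋂ n, ⋂ (_ : N ≤ n), (E.ev n)ᶜ := by
    ext ω
    simp [finite_iff]
  rw [this]
  exact MeasurableSet.iUnion fun N => MeasurableSet.iInter fun n =>
    MeasurableSet.iInter fun _ => (E.meas n).compl

end RS

/-- `g` is a nonprincipal ultrafilter with values in the measure algebra below `p` -/
structure IsUF (μ : Measure Ω) (p : Set Ω) (g : RS Ω → Set Ω) : Prop where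
  meas : ∀ E, MeasurableSet (g E)
  loc : ∀ E E' E'' : RS Ω, ∀ᵐ ω ∂μ, ω ∈ p → ω ∈ g E → ω ∈ g E' →
    ((E.sl ω ∩ E'.sl ω) \ E''.sl ω).Finite → ω ∈ g E''
  cpl : ∀ E : RS Ω, ∀ᵐ ω ∂μ, ω ∈ p → (ω ∈ g E.compl ↔ ω ∉ g E)

variable {μ : Measure Ω}

theorem IsUF.up {p : Set Ω} {g : RS Ω → Set Ω} (h : IsUF μ p g) (E E' : RS Ω) :
    ∀ᵐ ω ∂μ, ω ∈ p → ω ∈ g E → (E.sl ω \ E'.sl ω).Finite → ω ∈ g E' := by
  filter_upwards [h.loc E E E'] with ω hω hp hE hf
  exact hω hp hE hE (by simpa using hf)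

theorem IsUF.disj {p : Set Ω} {g : RS Ω → Set Ω} (h : IsUF μ p g) (E E' : RS Ω) :
    ∀ᵐ ω ∂μ, ω ∈ p → ω ∈ g E → ω ∈ g E' → (E.sl ω ∩ E'.sl ω).Infinite := by
  filter_upwards [h.loc E E' E.compl, h.cpl E] with ω h1 h2 hp hE hE' hf
  exact (h2 hp).1 (h1 hp hE hE' (hf.subset diff_subset)) hE

theorem IsUF.inf {p : Set Ω} {g : RS Ω → Set Ω} (h : IsUF μ p g) (E : RS Ω) :
    ∀ᵐ ω ∂μ, ω ∈ p → ω ∈ g E → (E.sl ω).Infinite := by
  filter_upwards [h.disj E E] with ω h1 hp hE
  simpa using h1 hp hE hE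

theorem IsUF.top {p : Set Ω} {g : RS Ω → Set Ω} (h : IsUF μ p g) (E : RS Ω) :
    ∀ᵐ ω ∂μ, ω ∈ p → (E.sl ω)ᶜ.Finite → ω ∈ g E := by
  filter_upwards [h.inf E.compl, h.cpl E] with ω h1 h2 hp hf
  by_contra hn
  exact h1 hp ((h2 hp).2 hn) hf

theorem IsUF.mono {p q : Set Ω} {g : RS Ω → Set Ω} (h : IsUF μ p g)
    (hq : ∀ᵐ ω ∂μ, ω ∈ q → ω ∈ p) : IsUF μ q g := by
  refine ⟨h.meas, fun E E' E'' => ?_, fun E => ?_⟩
  · filter_upwards [h.loc E E' E'', hq] with ω h1 h2 h3 using h1 (h2 h3)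
  · filter_upwards [h.cpl E, hq] with ω h1 h2 h3 using h1 (h2 h3)

/-- a filter base with conditions -/
structure IsBase (μ : Measure Ω) (p : Set Ω) (M : Set (RS Ω × Set Ω)) : Prop where
  meas : ∀ a ∈ M, MeasurableSet a.2
  top : (RS.univ, Set.univ) ∈ M
  inter : ∀ a ∈ M, ∀ b ∈ M, (a.1.inter b.1, a.2 ∩ b.2) ∈ M
  proper : ∀ a ∈ M, ∀ᵐ ω ∂μ, ω ∈ p → ω ∈ a.2 → (a.1.sl ω).Infinite

theorem exists_UF [SFinite μ] {p : Set Ω} {G : Set (RS Ω × Set Ω)} (hG : IsBase μ p G) :
    ∃ g, IsUF μ p g ∧ ∀ a ∈ G, ∀ᵐ ω ∂μ, ω ∈ a.2 → ω ∈ g a.1 := by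
  obtain ⟨M, hGM, hM⟩ := zorn_subset_nonempty {M | IsBase μ p M} (by
    intro c hc hch hne
    refine ⟨⋃₀ c, ⟨?_, ?_, ?_, ?_⟩, fun s hs => subset_sUnion_of_mem hs⟩
    · rintro a ⟨s, hs, ha⟩
      exact (hc hs).meas a ha
    · obtain ⟨s, hs⟩ := hne
      exact ⟨s, hs, (hc hs).top⟩
    · rintro a ⟨s, hs, ha⟩ b ⟨t, ht, hb⟩
      rcases hch.total hs ht with h | h
      · exact ⟨t, ht, (hc ht).inter a (h ha) b hb⟩
      · exact ⟨s, hs, (hc hs).inter a ha b (h hb)⟩
    · rintro a ⟨s, hs, ha⟩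
      exact (hc hs).proper a ha) G hG
  have hB : IsBase μ p M := hM.prop
  have add : ∀ (E : RS Ω) (S : Set Ω), MeasurableSet S →
      (∀ a ∈ M, ∀ᵐ ω ∂μ, ω ∈ p → ω ∈ a.2 → ω ∈ S → (a.1.sl ω ∩ E.sl ω).Infinite) →
      (E, S) ∈ M := by
    intro E S hS h
    have hB' : IsBase μ p (M ∪ {b | ∃ a ∈ M, b = (a.1.inter E, a.2 ∩ S)}) := by
      refine ⟨?_, Or.inl hB.top, ?_, ?_⟩
      · rintro b (hb | ⟨a, ha, rfl⟩)
        · exact hB.meas b hb
        · exact (hB.meas a ha).inter hS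
      · rintro b (hb | ⟨a, ha, rfl⟩) b' (hb' | ⟨a', ha', rfl⟩)
        · exact Or.inl (hB.inter b hb b' hb')
        · refine Or.inr ⟨_, hB.inter b hb a' ha', ?_⟩
          refine Prod.ext (RS.ext_sl fun ω => ?_) ?_
          · simp [inter_assoc]
          · simp [inter_assoc]
        · refine Or.inr ⟨_, hB.inter a ha b' hb', ?_⟩
          refine Prod.ext (RS.ext_sl fun ω => ?_) ?_
          · ext n; simp; tauto
          · ext n; simp; tauto
        · refine Or.inr ⟨_, hB.inter a ha a' ha', ?_⟩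
          refine Prod.ext (RS.ext_sl fun ω => ?_) ?_
          · ext n; simp; tauto
          · ext n; simp; tauto
      · rintro b (hb | ⟨a, ha, rfl⟩)
        · exact hB.proper b hb
        · filter_upwards [h a ha] with ω h1 hp h2
          exact h1 hp h2.1 h2.2
    have := hM.eq_of_subset hB' subset_union_left
    rw [this]
    refine Or.inr ⟨_, hB.top, Prod.ext (RS.ext_sl fun ω => ?_) ?_⟩ <;> simp
  have ex : ∀ E : RS Ω, ∃ D ⊆ {S | (E, S) ∈ M}, D.Countable ∧
      ∀ S ∈ {S | (E, S) ∈ M}, S ≤ᵐ[μ] (⋃₀ D : Set Ω) := fun E =>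
    Measure.exists_ae_subset_biUnion_countable μ fun S hS => hB.meas _ hS
  choose D hDM hDc hD using ex
  have hmeas : ∀ E, MeasurableSet (⋃₀ D E) := fun E =>
    MeasurableSet.sUnion (hDc E) fun S hS => hB.meas _ (hDM E hS)
  have hg : ∀ E, (E, ⋃₀ D E) ∈ M := by
    intro E
    refine add E _ (hmeas E) fun a ha => ?_
    have : ∀ᵐ ω ∂μ, ∀ S ∈ D E, ω ∈ p → ω ∈ a.2 ∩ S → ((a.1.inter E).sl ω).Infinite :=
      (ae_ball_iff (hDc E)).2 fun S hS => hB.proper _ (hB.inter a ha _ (hDM E hS))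
    filter_upwards [this] with ω h1 hp ha ⟨S, hS, hω⟩
    exact h1 S hS hp ⟨ha, hω⟩
  refine ⟨fun E => ⋃₀ D E, ⟨hmeas, fun E E' E'' => ?_, fun E => ?_⟩, fun a ha => ?_⟩
  · have := add E'' (⋃₀ D E ∩ ⋃₀ D E' ∩ {ω | (((E.inter E').inter E''.compl).sl ω).Finite})
      (((hmeas E).inter (hmeas E')).inter (RS.measurableSet_finite _)) (by
        intro a ha
        filter_upwards [hB.proper _ (hB.inter a ha _ (hB.inter _ (hg E) _ (hg E')))]
          with ω h1 hp h2 h3
        have h4 := h1 hp ⟨h2, h3.1⟩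
        intro hf
        refine h4 ((hf.union h3.2).subset ?_)
        intro n hn
        simp only [RS.sl_inter, RS.sl_compl, mem_inter_iff, mem_union, mem_compl_iff] at hn ⊢
        tauto)
    filter_upwards [hD E'' _ this] with ω h1 _ h2 h3 h4
    exact h1 ⟨⟨h2, h3⟩, h4⟩
  · have h0 : ∀ᵐ ω ∂μ, ω ∈ p → ω ∈ ⋃₀ D E.compl → ω ∉ ⋃₀ D E := by
      filter_upwards [hB.proper _ (hB.inter _ (hg E) _ (hg E.compl))] with ω h1 hp h2 h3
      exact h1 hp ⟨h3, h2⟩ (by simp)
    have h1 : ∀ᵐ ω ∂μ, ω ∈ p → ω ∉ (⋃₀ D E ∪ ⋃₀ D E.compl)ᶜ := by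
      have hT : MeasurableSet (⋃₀ D E ∪ ⋃₀ D E.compl)ᶜ := ((hmeas E).union (hmeas _)).compl
      have := add E _ hT (by
        intro a ha
        have := add E.compl (a.2 ∩ (⋃₀ D E ∪ ⋃₀ D E.compl)ᶜ ∩ {ω | ((a.1.inter E).sl ω).Finite})
          (((hB.meas a ha).inter hT).inter (RS.measurableSet_finite _)) (by
            intro b hb
            filter_upwards [hB.proper _ (hB.inter a ha b hb)] with ω h1 hp h2 h3
            have h4 := h1 hp ⟨h3.1.1, h2⟩
            intro hf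
            refine h4 ((hf.union h3.2).subset ?_)
            intro n hn
            simp only [RS.sl_inter, RS.sl_compl, mem_inter_iff, mem_union, mem_compl_iff]
              at hn ⊢
            tauto)
        filter_upwards [hD _ _ this] with ω h1 _ h2 h3 hf
        exact h3 (Or.inr (h1 ⟨⟨h2, h3⟩, hf⟩)))
      filter_upwards [hD _ _ this] with ω h1 _ h2
      exact h2 (Or.inl (h1 h2))
    filter_upwards [h0, h1] with ω h0 h1 hp
    refine ⟨h0 hp, fun hn => ?_⟩
    have := h1 hp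
    simp only [mem_compl_iff, not_not, mem_union] at this
    tauto
  · filter_upwards [hD a.1 a.2 (hGM ha)] with ω h using h

/-- families of random sets which generate a tall P-ideal in the extension -/
structure Good (μ : Measure Ω) (Y : Set (RS Ω)) : Prop where
  pu : ∀ E : ℕ → RS Ω, (∀ k, E k ∈ Y) →
    ∃ F ∈ Y, ∀ k, ∀ᵐ ω ∂μ, ((E k).sl ω \ F.sl ω).Finite
  tall : ∀ B : RS Ω, (∀ᵐ ω ∂μ, (B.sl ω).Infinite) →
    ∃ E ∈ Y, (∀ ω, E.sl ω ⊆ B.sl ω) ∧ ∀ᵐ ω ∂μ, (E.sl ω).Infinite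

theorem Good.nonempty {Y : Set (RS Ω)} (h : Good μ Y) : Y.Nonempty := by
  obtain ⟨E, hE, -⟩ := h.tall RS.univ (Eventually.of_forall fun ω => by simpa using infinite_univ)
  exact ⟨E, hE⟩

theorem Good.pu_countable {Y : Set (RS Ω)} (h : Good μ Y) {D : Set (RS Ω)} (hD : D.Countable)
    (hDY : D ⊆ Y) : ∃ F ∈ Y, ∀ E ∈ D, ∀ᵐ ω ∂μ, (E.sl ω \ F.sl ω).Finite := by
  rcases D.eq_empty_or_nonempty with rfl | hne
  · obtain ⟨F, hF⟩ := h.nonempty
    exact ⟨F, hF, by simp⟩
  · obtain ⟨f, rfl⟩ := hD.exists_eq_range hne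
    obtain ⟨F, hF, h'⟩ := h.pu f fun k => hDY ⟨k, rfl⟩
    exact ⟨F, hF, by rintro _ ⟨k, rfl⟩; exact h' k⟩

end Pool.Agent.MP_deb3c6_lc

end MrgPart0

-- ======== part 1: formerly Pool.Agent.MP_deb3c6_lc.Good
section MrgPart1

/-! Two kinds of good families: summable ones, and conditionally null ones. -/

open MeasureTheory Set Filter Topology
open scoped ENNReal

namespace Pool.Agent.MP_deb3c6_lc

theorem half_pow_pos (k : ℕ) : (0 : ℝ≥0∞) < 2⁻¹ ^ k := ENNReal.pow_pos (by simp) k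

theorem tsum_ind_le {s : Set ℕ} {t : ℕ → Set ℕ} (h : s ⊆ ⋃ k, t k) (y : ℕ → ℝ≥0∞)
    (hb : ∀ k, ∑' n, (t k).indicator y n ≤ 2⁻¹ ^ k) : ∑' n, s.indicator y n ≠ ∞ := by
  have h1 : ∑' n, s.indicator y n ≤ ∑' n, ∑' k, (t k).indicator y n := by
    refine ENNReal.tsum_le_tsum fun n => ?_
    by_cases hn : n ∈ s
    · obtain ⟨k, hk⟩ := mem_iUnion.1 (h hn)
      refine le_trans ?_ (ENNReal.le_tsum k)
      simp [hn, hk]
    · simp [hn]
  rw [ENNReal.tsum_comm] at h1
  refine ne_top_of_le_ne_top ?_ (h1.trans (ENNReal.tsum_le_tsum hb))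
  rw [ENNReal.tsum_geometric_two]
  simp

theorem tsum_tail_le (s : Set ℕ) (y : ℕ → ℝ≥0∞) (ε : ℝ≥0∞) :
    ∑' n, (s ∩ {n | ∑' m, s.indicator y (m + n) ≤ ε}).indicator y n ≤ ε := by
  classical
  by_cases h : ∃ n, ∑' m, s.indicator y (m + n) ≤ ε
  · set n0 := Nat.find h
    rw [← (ENNReal.summable (f := fun n => (s ∩ {n | ∑' m, s.indicator y (m + n) ≤ ε}).indicator
      y (n + n0))).sum_add_tsum_nat_add']
    have h0 : ∑ i ∈ Finset.range n0,
        (s ∩ {n | ∑' m, s.indicator y (m + n) ≤ ε}).indicator y i = 0 := by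
      refine Finset.sum_eq_zero fun i hi => indicator_of_notMem ?_ _
      exact fun h' => Nat.find_min h (Finset.mem_range.1 hi) h'.2
    rw [h0, zero_add]
    refine le_trans (ENNReal.tsum_le_tsum fun m => ?_) (Nat.find_spec h)
    exact indicator_le_indicator_of_subset inter_subset_left (fun _ => zero_le) _
  · have : s ∩ {n | ∑' m, s.indicator y (m + n) ≤ ε} = ∅ := by
      ext n
      simp only [mem_inter_iff, mem_ofPred_eq, mem_empty_iff_false, iff_false, not_and]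
      exact fun _ h' => h ⟨n, h'⟩
    simp [this]

theorem meas_tsum {Ω : Type} {m : MeasurableSpace Ω} {f : ℕ → Ω → ℝ≥0∞}
    (h : ∀ n, Measurable[m] (f n)) : Measurable[m] fun ω => ∑' n, f n ω := Measurable.tsum h

section Summ

variable {Ω : Type} [MeasurableSpace Ω] {μ : Measure Ω}

/-- the random sets along which `y` is summable -/
def Summ (μ : Measure Ω) (y : ℕ → Ω → ℝ≥0∞) : Set (RS Ω) :=
  {E | ∀ᵐ ω ∂μ, ∑' n, (E.sl ω).indicator (fun n => y n ω) n ≠ ∞}

theorem ind_sl (E : RS Ω) (y : ℕ → Ω → ℝ≥0∞) (n : ℕ) (ω : Ω) :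
    (E.sl ω).indicator (fun n => y n ω) n = (E.ev n).indicator (y n) ω := by
  by_cases h : ω ∈ E.ev n <;> simp [h]

theorem good_summ {y : ℕ → Ω → ℝ≥0∞} (hy : ∀ n, Measurable (y n))
    (h0 : ∀ᵐ ω ∂μ, Tendsto (fun n => y n ω) atTop (𝓝 0)) : Good μ (Summ μ y) := by
  refine ⟨fun E hE => ?_, fun B hB => ?_⟩
  · let F : RS Ω := ⟨fun n => ⋃ k, (E k).ev n ∩
      {ω | ∑' m, ((E k).sl ω).indicator (fun n => y n ω) (m + n) ≤ 2⁻¹ ^ k}, fun n => by
        refine MeasurableSet.iUnion fun k => ((E k).meas n).inter ?_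
        refine measurableSet_le (Measurable.tsum fun m => ?_) measurable_const
        simp_rw [ind_sl]
        exact (hy _).indicator ((E k).meas _)⟩
    refine ⟨F, ae_of_all μ fun ω => ?_, fun k => ?_⟩
    · refine tsum_ind_le (t := fun k => (E k).sl ω ∩
        {n | ∑' m, ((E k).sl ω).indicator (fun n => y n ω) (m + n) ≤ 2⁻¹ ^ k}) ?_ _
        fun k => tsum_tail_le _ _ _
      intro n hn
      obtain ⟨k, hk⟩ := mem_iUnion.1 hn
      exact mem_iUnion.2 ⟨k, hk⟩
    · filter_upwards [hE k] with ω hω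
      have := (ENNReal.tendsto_sum_nat_add _ hω).eventually (ge_mem_nhds (half_pow_pos k))
      obtain ⟨N, hN⟩ := eventually_atTop.1 this
      refine RS.finite_iff.2 ⟨N, fun n hn h => h.2 (mem_iUnion.2 ⟨k, h.1, hN n hn⟩)⟩
  · let Q : ℕ → ℕ → Set Ω := fun k n => {ω | k ≤ n ∧ ω ∈ B.ev n ∧ y n ω ≤ 2⁻¹ ^ k}
    have hQ : ∀ k n, MeasurableSet (Q k n) := fun k n =>
      (MeasurableSet.const _).inter ((B.meas n).inter (measurableSet_le (hy n) measurable_const))
    let E : RS Ω := ⟨fun n => ⋃ k, Q k n ∩ ⋂ m, ⋂ (_ : m < n), (Q k m)ᶜ, fun n =>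
      MeasurableSet.iUnion fun k => (hQ k n).inter
        (MeasurableSet.iInter fun m => MeasurableSet.iInter fun _ => (hQ k m).compl)⟩
    have hE : ∀ ω n, n ∈ E.sl ω ↔ ∃ k, ω ∈ Q k n ∧ ∀ m < n, ω ∉ Q k m := by
      intro ω n
      simp [E]
    refine ⟨E, ae_of_all μ fun ω => ?_, fun ω n hn => ?_, ?_⟩
    · refine tsum_ind_le (t := fun k => {n | ω ∈ Q k n ∧ ∀ m < n, ω ∉ Q k m}) ?_ _ fun k => ?_
      · intro n hn
        obtain ⟨k, hk⟩ := (hE ω n).1 hn
        exact mem_iUnion.2 ⟨k, hk⟩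
      · by_cases h : ∃ n, ω ∈ Q k n ∧ ∀ m < n, ω ∉ Q k m
        · obtain ⟨n, hn⟩ := h
          rw [tsum_eq_single n]
          · rw [indicator_of_mem (by exact hn)]
            exact hn.1.2.2
          · intro m hm
            refine indicator_of_notMem (fun h' => ?_) _
            rcases lt_or_gt_of_ne hm with h | h
            · exact hn.2 m h h'.1
            · exact h'.2 n h hn.1
        · have : {n | ω ∈ Q k n ∧ ∀ m < n, ω ∉ Q k m} = ∅ := by
            ext n
            simp only [mem_ofPred_eq, mem_empty_iff_false, iff_false]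
            exact fun h' => h ⟨n, h'⟩
          simp [this]
    · obtain ⟨k, hk, -⟩ := (hE ω n).1 hn
      exact hk.2.1
    · filter_upwards [hB, h0] with ω h1 h2 hf
      classical
      obtain ⟨k, hk⟩ := RS.finite_iff.1 hf
      obtain ⟨N, hN⟩ := eventually_atTop.1 (h2.eventually (ge_mem_nhds (half_pow_pos k)))
      obtain ⟨n, hn, hn'⟩ := h1.exists_gt (max N k)
      have hex : ∃ n, ω ∈ Q k n :=
        ⟨n, (le_max_right _ _).trans hn'.le, hn, hN n ((le_max_left _ _).trans hn'.le)⟩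
      exact hk (Nat.find hex) (Nat.find_spec hex).1
        ((hE ω _).2 ⟨k, Nat.find_spec hex, fun m hm => Nat.find_min hex hm⟩)

end Summ

section Cnd

variable {Ω : Type} (m : MeasurableSpace Ω) [m0 : MeasurableSpace Ω] {μ : Measure Ω}

/-- the random sets `E` with `P(n ∈ E | m) → 0` almost surely -/
def Cnd (μ : Measure Ω) : Set (RS Ω) :=
  {E | ∃ y : ℕ → Ω → ℝ≥0∞, (∀ n, Measurable[m] (y n)) ∧
    (∀ᵐ ω ∂μ, Tendsto (fun n => y n ω) atTop (𝓝 0)) ∧
    ∀ n S, MeasurableSet[m] S → μ (S ∩ E.ev n) ≤ ∫⁻ ω in S, y n ω ∂μ}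

variable {m}

theorem cnd_pu (hm : m ≤ m0) (E : ℕ → RS Ω) (hE : ∀ k, E k ∈ Cnd m μ) :
    ∃ F ∈ Cnd m μ, ∀ k, ∀ᵐ ω ∂μ, ((E k).sl ω \ F.sl ω).Finite := by
  choose y hy h0 hb using hE
  have hT : ∀ k n, MeasurableSet[m] {ω | y k n ω ≤ 2⁻¹ ^ k} := fun k n =>
    measurableSet_le (hy k n) measurable_const
  let F : RS Ω := ⟨fun n => ⋃ k, (E k).ev n ∩ {ω | y k n ω ≤ 2⁻¹ ^ k}, fun n =>
    MeasurableSet.iUnion fun k => ((E k).meas n).inter (hm _ (hT k n))⟩
  refine ⟨F, ⟨fun n ω => ∑' k, {ω | y k n ω ≤ 2⁻¹ ^ k}.indicator (y k n) ω, fun n => ?_, ?_,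
    fun n S hS => ?_⟩, fun k => ?_⟩
  · exact meas_tsum fun k => (hy k n).indicator (hT k n)
  · filter_upwards [ae_all_iff.2 h0] with ω hω
    have := tendsto_lintegral_of_dominated_convergence (μ := (Measure.count : Measure ℕ))
      (F := fun n k => {ω | y k n ω ≤ 2⁻¹ ^ k}.indicator (y k n) ω) (f := fun _ => 0)
      (fun k => 2⁻¹ ^ k) (fun n => measurable_from_top) (fun n => Eventually.of_forall fun k => by
        by_cases h : y k n ω ≤ 2⁻¹ ^ k <;> simp [h])
      (by rw [lintegral_count, ENNReal.tsum_geometric_two]; simp)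
      (Eventually.of_forall fun k => tendsto_of_tendsto_of_tendsto_of_le_of_le tendsto_const_nhds
        (hω k) (fun _ => zero_le) fun n => indicator_le_self _ _ _)
    simpa [lintegral_count] using this
  · rw [lintegral_tsum fun k => (((hy k n).indicator (hT k n)).mono hm le_rfl).aemeasurable]
    have : S ∩ F.ev n = ⋃ k, (S ∩ {ω | y k n ω ≤ 2⁻¹ ^ k}) ∩ (E k).ev n := by
      ext ω
      simp only [F, mem_inter_iff, mem_iUnion]
      tauto
    rw [this]
    refine (measure_iUnion_le _).trans (ENNReal.tsum_le_tsum fun k => ?_)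
    refine (hb k n _ (hS.inter (hT k n))).trans (le_of_eq ?_)
    rw [lintegral_indicator (hm _ (hT k n)), Measure.restrict_restrict (hm _ (hT k n)), inter_comm]
  · filter_upwards [h0 k] with ω hω
    obtain ⟨N, hN⟩ := eventually_atTop.1 (hω.eventually (ge_mem_nhds (half_pow_pos k)))
    exact RS.finite_iff.2 ⟨N, fun n hn h => h.2 (mem_iUnion.2 ⟨k, h.1, hN n hn⟩)⟩

theorem cnd_miss [IsFiniteMeasure μ] (hm : m ≤ m0) {E F : RS Ω} {y : ℕ → Ω → ℝ≥0∞}
    (hy : ∀ n, Measurable[m] (y n))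
    (hb : ∀ n S, MeasurableSet[m] S → μ (S ∩ E.ev n) ≤ ∫⁻ ω in S, y n ω ∂μ)
    (hF : ∀ n, MeasurableSet[m] (F.ev n)) (hs : F ∈ Summ μ y) :
    ∀ᵐ ω ∂μ, (E.sl ω ∩ F.sl ω).Finite := by
  have hsum : Measurable[m] fun ω => ∑' n, (F.ev n).indicator (y n) ω :=
    meas_tsum fun n => (hy n).indicator (hF n)
  have key : ∀ M : ℕ, ∀ᵐ ω ∂μ, {n | ω ∈ ({ω | ∑' n, (F.ev n).indicator (y n) ω ≤ M} ∩ F.ev n) ∩
      E.ev n}.Finite := by
    intro M
    have hS : MeasurableSet[m] {ω | ∑' n, (F.ev n).indicator (y n) ω ≤ M} :=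
      measurableSet_le hsum measurable_const
    refine ae_finite_setOfPred_mem (ne_top_of_le_ne_top (b := M * μ univ)
      (ENNReal.mul_ne_top (by simp) (measure_ne_top _ _)) ?_)
    calc ∑' n, μ (({ω | ∑' n, (F.ev n).indicator (y n) ω ≤ M} ∩ F.ev n) ∩ E.ev n)
        ≤ ∑' n, ∫⁻ ω in {ω | ∑' n, (F.ev n).indicator (y n) ω ≤ M},
            (F.ev n).indicator (y n) ω ∂μ := by
          refine ENNReal.tsum_le_tsum fun n => (hb n _ (hS.inter (hF n))).trans (le_of_eq ?_)
          rw [lintegral_indicator (F.meas n), Measure.restrict_restrict (F.meas n), inter_comm]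
      _ = ∫⁻ ω in {ω | ∑' n, (F.ev n).indicator (y n) ω ≤ M},
            ∑' n, (F.ev n).indicator (y n) ω ∂μ := by
          rw [lintegral_tsum fun n => (((hy n).indicator (hF n)).mono hm le_rfl).aemeasurable]
      _ ≤ ∫⁻ ω in {ω | ∑' n, (F.ev n).indicator (y n) ω ≤ M}, (M : ℝ≥0∞) ∂μ :=
          setLIntegral_mono' (hm _ hS) fun ω h => h
      _ ≤ M * μ univ := by
          rw [setLIntegral_const]
          gcongr
          exact subset_univ _
  filter_upwards [ae_all_iff.2 key, hs] with ω h1 h2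
  simp_rw [ind_sl] at h2
  obtain ⟨M, hM⟩ := ENNReal.exists_nat_gt h2
  exact (h1 M).subset fun n hn => ⟨⟨hM.le, hn.2⟩, hn.1⟩

theorem condLExp_tendsto [IsFiniteMeasure μ] (hm : m ≤ m0) {Z : ℕ → Ω → ℝ≥0∞}
    (hZ : ∀ n, Measurable (Z n)) (ha : ∀ ω, Antitone fun n => Z n ω) (h1 : ∀ ω, Z 0 ω ≤ 1)
    (h0 : ∀ᵐ ω ∂μ, Tendsto (fun n => Z n ω) atTop (𝓝 0)) :
    ∀ᵐ ω ∂μ, Tendsto (fun n => condLExp m μ (Z n) ω) atTop (𝓝 0) := by
  have hanti : ∀ᵐ ω ∂μ, ∀ n, condLExp m μ (Z (n + 1)) ω ≤ condLExp m μ (Z n) ω :=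
    ae_all_iff.2 fun n => condLExp_mono (Eventually.of_forall fun ω => ha ω (Nat.le_succ n))
  have hlim := lintegral_tendsto_of_tendsto_of_antitone (μ := μ) (F := fun _ => 0)
    (fun n => (hZ n).aemeasurable) (Eventually.of_forall ha)
    (ne_top_of_le_ne_top (b := ∫⁻ _, 1 ∂μ) (by simp) (lintegral_mono h1)) h0
  have hinf : ∫⁻ ω, ⨅ n, condLExp m μ (Z n) ω ∂μ = 0 := by
    refine le_antisymm (ge_of_tendsto' (by simpa using hlim) fun n => ?_) zero_le
    rw [← lintegral_condLExp hm μ (Z n)]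
    exact lintegral_mono fun ω => iInf_le _ n
  rw [lintegral_eq_zero_iff (Measurable.iInf fun n => measurable_condLExp' _ _ _)] at hinf
  filter_upwards [hanti, hinf] with ω h2 h3
  have := tendsto_atTop_iInf (antitone_nat_of_succ_le (f := fun n => condLExp m μ (Z n) ω) h2)
  rwa [show ⨅ n, condLExp m μ (Z n) ω = 0 from h3] at this

theorem cnd_tall [IsFiniteMeasure μ] (hm : m ≤ m0) (B : RS Ω) (hB : ∀ᵐ ω ∂μ, (B.sl ω).Infinite)
    (m' : {m' : MeasurableSpace Ω // m ≤ m' ∧ m' ≤ m0})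
    (hBm : ∀ n, MeasurableSet[m'.1] (B.ev n))
    (P : ℕ → Set Ω) (hP : ∀ k, MeasurableSet (P k)) (hPi : ∀ ω, {k | ω ∈ P k}.Infinite)
    (a : ℕ → ℝ≥0∞) (ha : Antitone a) (ha0 : a 0 ≤ 1) (hal : Tendsto a atTop (𝓝 0))
    (hind : ∀ k S, MeasurableSet[m'.1] S → μ (S ∩ P k) ≤ a k * μ S) :
    ∃ E ∈ Cnd m μ, (∀ ω, E.sl ω ⊆ B.sl ω) ∧ ∀ᵐ ω ∂μ, (E.sl ω).Infinite := by
  classical
  let c : ℕ → Ω → ℕ := fun n ω => Nat.count (fun k => ω ∈ B.ev k) n
  have hc : ∀ n, Measurable[m'.1] (c n) := by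
    intro n
    induction n with
    | zero => simp [c]
    | succ n ih =>
      have : c (n + 1) = fun ω => c n ω + if ω ∈ B.ev n then 1 else 0 := by
        ext ω
        simp [c, Nat.count_succ]
      rw [this]
      exact ih.add (Measurable.ite (hBm n) measurable_const measurable_const)
  have hck : ∀ n k, MeasurableSet[m'.1] {ω | c n ω = k} := fun n k =>
    hc n (measurableSet_singleton k)
  let E : RS Ω := ⟨fun n => B.ev n ∩ ⋃ k, {ω | c n ω = k} ∩ P k, fun n =>
    (B.meas n).inter (MeasurableSet.iUnion fun k => (m'.2.2 _ (hck n k)).inter (hP k))⟩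
  have hcm : ∀ ω, Monotone fun n => c n ω := fun ω => Nat.count_monotone _
  refine ⟨E, ⟨fun n => condLExp m μ fun ω => a (c n ω), fun n => measurable_condLExp _ _ _, ?_,
    fun n S hS => ?_⟩, fun ω n hn => hn.1, ?_⟩
  · refine condLExp_tendsto hm (fun n => ?_) (fun ω => ha.comp_monotone (hcm ω))
      (fun ω => by simpa [c] using ha0) ?_
    · exact measurable_from_top.comp ((hc n).mono m'.2.2 le_rfl)
    · filter_upwards [hB] with ω hω
      refine hal.comp (tendsto_atTop_atTop_of_monotone (hcm ω) fun k => ?_)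
      exact ⟨Nat.nth (fun k => ω ∈ B.ev k) k, (Nat.count_nth_of_infinite hω k).ge⟩
  · rw [setLIntegral_condLExp hm μ _ hS]
    have hS' : ∀ k, MeasurableSet[m'.1] (S ∩ {ω | c n ω = k}) := fun k =>
      (m'.2.1 _ hS).inter (hck n k)
    have h1 : S = ⋃ k, S ∩ {ω | c n ω = k} := by
      ext ω
      simp
    have h2 : S ∩ E.ev n ⊆ ⋃ k, (S ∩ {ω | c n ω = k}) ∩ P k := by
      rintro ω ⟨h1, -, h2⟩
      obtain ⟨k, hk⟩ := mem_iUnion.1 h2
      exact mem_iUnion.2 ⟨k, ⟨h1, hk.1⟩, hk.2⟩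
    conv_rhs => rw [h1]
    rw [lintegral_iUnion (fun k => m'.2.2 _ (hS' k))]
    · refine (measure_mono h2).trans ((measure_iUnion_le _).trans
        (ENNReal.tsum_le_tsum fun k => (hind k _ (hS' k)).trans (le_of_eq ?_)))
      rw [← setLIntegral_const]
      refine setLIntegral_congr_fun (m'.2.2 _ (hS' k)) fun ω hω => ?_
      rw [show c n ω = k from hω.2]
    · intro i j hij
      refine disjoint_left.2 fun ω h h' => hij ?_
      rw [← h.2, ← h'.2]
  · filter_upwards [hB] with ω hω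
    refine ((hPi ω).image (Nat.nth_injective hω).injOn).mono ?_
    rintro _ ⟨k, hk, rfl⟩
    exact ⟨Nat.nth_mem_of_infinite hω k,
      mem_iUnion.2 ⟨k, Nat.count_nth_of_infinite hω k, hk⟩⟩

end Cnd

end Pool.Agent.MP_deb3c6_lc

end MrgPart1

-- ======== part 2: formerly Pool.Agent.MP_deb3c6_lc.Product
section MrgPart2

/-! Facts on the product space `J → Bool`. -/

open MeasureTheory ProbabilityTheory Set Filter Topology Cardinal
open scoped ENNReal

namespace Pool.Agent.MP_deb3c6_lc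

variable {J : Type}

/-- events depending only on the coordinates in `A` -/
abbrev cyl (A : Set J) : MeasurableSpace (J → Bool) := cylinderEvents (X := fun _ : J => Bool) A

/-- the fair coin measure -/
noncomputable def coinM (J : Type) : Measure (J → Bool) :=
  Measure.infinitePi fun _ => uniformOn Set.univ

instance : IsProbabilityMeasure (coinM J) := by
  unfold coinM
  infer_instance

theorem cyl_le (A : Set J) : cyl A ≤ MeasurableSpace.pi := cylinderEvents_le_pi

theorem cyl_mono {A B : Set J} (h : A ⊆ B) : cyl A ≤ cyl B := cylinderEvents_mono h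

theorem exists_support {A : Set J} {t : Set (J → Bool)} (ht : MeasurableSet[cyl A] t) :
    ∃ S ⊆ A, S.Countable ∧ MeasurableSet[cyl S] t := by
  let m' : MeasurableSpace (J → Bool) :=
    { MeasurableSet' := fun t => ∃ S ⊆ A, S.Countable ∧ MeasurableSet[cyl S] t
      measurableSet_empty := ⟨∅, empty_subset _, countable_empty, @MeasurableSet.empty _ (cyl ∅)⟩
      measurableSet_compl := fun t ⟨S, h1, h2, h3⟩ => ⟨S, h1, h2, h3.compl⟩
      measurableSet_iUnion := fun f hf => by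
        choose S h1 h2 h3 using hf
        exact ⟨⋃ n, S n, iUnion_subset h1, countable_iUnion h2,
          MeasurableSet.iUnion fun n => cyl_mono (subset_iUnion S n) _ (h3 n)⟩ }
  have : cyl A ≤ m' := by
    refine iSup₂_le fun i hi => ?_
    rintro _ ⟨u, hu, rfl⟩
    exact ⟨{i}, singleton_subset_iff.2 hi, countable_singleton i,
      measurable_cylinderEvent_apply (X := fun _ : J => Bool) (mem_singleton i) hu⟩
  exact this t ht

theorem exists_support_family {A : Set J} {κ : Type} [Countable κ] {t : κ → Set (J → Bool)}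
    (ht : ∀ k, MeasurableSet[cyl A] (t k)) :
    ∃ S ⊆ A, S.Countable ∧ ∀ k, MeasurableSet[cyl S] (t k) := by
  choose S h1 h2 h3 using fun k => exists_support (ht k)
  exact ⟨⋃ n, S n, iUnion_subset h1, countable_iUnion h2,
    fun n => cyl_mono (subset_iUnion S n) _ (h3 n)⟩

theorem exists_support_RS (E : RS (J → Bool)) :
    ∃ S : Set J, S.Countable ∧ ∀ n, MeasurableSet[cyl S] (E.ev n) := by
  obtain ⟨S, -, h⟩ := exists_support_family (A := univ) (t := E.ev) fun n => by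
    rw [show cyl (univ : Set J) = MeasurableSpace.pi from cylinderEvents_univ]
    exact E.meas n
  exact ⟨S, h⟩

theorem measurable_of_rat {Ω : Type} {m : MeasurableSpace Ω} {f : Ω → ℝ≥0∞}
    (h : ∀ q : ℚ, MeasurableSet[m] {ω | f ω < Real.toNNReal q}) : Measurable[m] f := by
  refine measurable_of_Iio fun a => ?_
  have : f ⁻¹' Iio a = ⋃ q : ℚ, ⋃ (_ : (Real.toNNReal q : ℝ≥0∞) < a),
      {ω | f ω < Real.toNNReal q} := by
    ext ω
    simp only [mem_preimage, mem_Iio, mem_iUnion, mem_ofPred_eq, exists_prop]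
    constructor
    · intro h
      obtain ⟨q, -, h1, h2⟩ := ENNReal.lt_iff_exists_rat_btwn.1 h
      exact ⟨q, h2, h1⟩
    · rintro ⟨q, h1, h2⟩
      exact h2.trans h1
  rw [this]
  exact MeasurableSet.iUnion fun q => MeasurableSet.iUnion fun _ => h q

theorem exists_support_fun {A : Set J} {y : ℕ → (J → Bool) → ℝ≥0∞}
    (hy : ∀ n, Measurable[cyl A] (y n)) :
    ∃ S ⊆ A, S.Countable ∧ ∀ n, Measurable[cyl S] (y n) := by
  obtain ⟨S, h1, h2, h3⟩ := exists_support_family (A := A)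
    (t := fun k : ℕ × ℚ => {ω | y k.1 ω < Real.toNNReal k.2}) fun k =>
      hy k.1 (measurableSet_Iio (a := (Real.toNNReal k.2 : ℝ≥0∞)))
  exact ⟨S, h1, h2, fun n => measurable_of_rat fun q => h3 (n, q)⟩

theorem card_sets {S : Set J} (hS : S.Countable) :
    #{t : Set (J → Bool) | MeasurableSet[cyl S] t} ≤ 𝔠 := by
  let G : Set (Set (J → Bool)) :=
    (fun x : J × Set Bool => (fun ω : J → Bool => ω x.1) ⁻¹' x.2) '' (S ×ˢ Set.univ)
  have hG : G.Countable := (hS.prod countable_univ).image _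
  have h1 : cyl S ≤ MeasurableSpace.generateFrom G := by
    refine iSup₂_le fun i hi => ?_
    rintro _ ⟨u, -, rfl⟩
    exact MeasurableSpace.measurableSet_generateFrom ⟨(i, u), ⟨hi, mem_univ _⟩, rfl⟩
  refine le_trans (mk_le_mk_of_subset fun t ht => h1 t ht)
    (MeasurableSpace.cardinal_measurableSet_le_continuum (s := G) ?_)
  exact (le_aleph0_iff_set_countable.2 hG).trans aleph0_le_continuum

theorem card_funs {S : Set J} (hS : S.Countable) :
    #{y : ℕ → (J → Bool) → ℝ≥0∞ | ∀ n, Measurable[cyl S] (y n)} ≤ 𝔠 := by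
  let f : {y : ℕ → (J → Bool) → ℝ≥0∞ | ∀ n, Measurable[cyl S] (y n)} →
      (ℕ × ℚ → {t : Set (J → Bool) | MeasurableSet[cyl S] t}) := fun y k =>
    ⟨{ω | y.1 k.1 ω < Real.toNNReal k.2},
      y.2 k.1 (measurableSet_Iio (a := (Real.toNNReal k.2 : ℝ≥0∞)))⟩
  have hf : Function.Injective f := by
    intro y y' h
    have key : ∀ n ω (q : ℚ), y.1 n ω < Real.toNNReal q ↔ y'.1 n ω < Real.toNNReal q := by
      intro n ω q
      exact Set.ext_iff.1 (congrArg Subtype.val (congrFun h (n, q))) ω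
    ext n ω
    apply le_antisymm
    · by_contra hlt
      obtain ⟨q, -, h1, h2⟩ := ENNReal.lt_iff_exists_rat_btwn.1 (not_le.1 hlt)
      exact lt_asymm h2 ((key n ω q).2 h1)
    · by_contra hlt
      obtain ⟨q, -, h1, h2⟩ := ENNReal.lt_iff_exists_rat_btwn.1 (not_le.1 hlt)
      exact lt_asymm h2 ((key n ω q).1 h1)
  refine (mk_le_of_injective hf).trans ?_
  rw [mk_arrow]
  simp only [lift_id, mk_prod, mk_nat, Cardinal.mkRat, aleph0_mul_aleph0]
  calc _ ≤ 𝔠 ^ ℵ₀ := power_le_power_right (card_sets hS)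
    _ = 𝔠 := continuum_power_aleph0

/-- closing off under a countably supported operation with values of size continuum -/
theorem exists_closed (Φ : Set J → Set J) (hΦ : ∀ S : Set J, S.Countable → #(Φ S) ≤ 𝔠) :
    ∃ A : Set J, #A ≤ 𝔠 ∧ ∀ S ⊆ A, S.Countable → Φ S ⊆ A := by
  classical
  have hf : ∀ S : Set J, ∃ f : ℝ → Option J, S.Countable → ∀ j ∈ Φ S, ∃ r, f r = some j := by
    intro S
    by_cases hS : S.Countable
    · have h1 := hΦ S hS
      rw [← mk_real] at h1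
      obtain ⟨e⟩ := h1
      refine ⟨fun r => if h : ∃ j, e j = r then some h.choose.1 else none, fun _ j hj =>
        ⟨e ⟨j, hj⟩, ?_⟩⟩
      have h : ∃ j', e j' = e ⟨j, hj⟩ := ⟨_, rfl⟩
      simp only
      rw [dif_pos h, e.injective h.choose_spec]
    · exact ⟨fun _ => none, fun h => absurd h hS⟩
  choose f hf using hf
  let β : Option ℝ → Type := fun a => {_n : ℕ // a ≠ none}
  let ev : WType β → Option J := WType.elim (Option J) fun x =>
    match x with
    | ⟨none, _⟩ => none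
    | ⟨some r, ch⟩ => f {j | ∃ n, ch n = some j} r
  have hW : #(WType β) ≤ 𝔠 := by
    refine WType.cardinalMk_le_of_le ((sum_le_sum _ (fun _ => 𝔠) fun a => ?_).trans ?_)
    · calc _ ≤ 𝔠 ^ ℵ₀ := power_le_power_left continuum_ne_zero mk_le_aleph0
        _ = 𝔠 := continuum_power_aleph0
    · simp [mk_real, add_one_eq aleph0_le_continuum]
  refine ⟨{j | ∃ t, ev t = some j}, ?_, fun S hSA hS j hj => ?_⟩
  · refine le_trans (mk_le_of_injective (f := fun j : {j | ∃ t, ev t = some j} => j.2.choose)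
      fun j j' h => ?_) hW
    have h1 := j.2.choose_spec
    have h2 := j'.2.choose_spec
    simp only at h
    rw [h, h2] at h1
    exact Subtype.ext (Option.some.inj h1).symm
  · obtain ⟨r, hr⟩ := hf S hS j hj
    have : ∃ ch : ℕ → WType β, ∀ j, (∃ n, ev (ch n) = some j) ↔ j ∈ S := by
      rcases S.eq_empty_or_nonempty with rfl | hne
      · exact ⟨fun _ => WType.mk none fun n => absurd rfl n.2, fun j => by simp [ev, WType.elim]⟩
      · obtain ⟨s, rfl⟩ := hS.exists_eq_range hne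
        choose ch hch using fun n => hSA (mem_range_self n)
        refine ⟨ch, fun j => ?_⟩
        simp only [hch, Option.some.injEq, mem_range]
    obtain ⟨ch, hch⟩ := this
    refine ⟨WType.mk (some r) fun n => ch n.1, ?_⟩
    rw [← hr]
    simp only [ev, WType.elim]
    congr 1
    ext j
    rw [← hch]
    exact ⟨fun ⟨n, hn⟩ => ⟨n.1, hn⟩, fun ⟨n, hn⟩ => ⟨⟨n, by simp⟩, hn⟩⟩

theorem cyl_indep {A B : Set J} (h : Disjoint A B) {s t : Set (J → Bool)}
    (hs : MeasurableSet[cyl A] s) (ht : MeasurableSet[cyl B] t) :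
    coinM J (s ∩ t) = coinM J s * coinM J t := by
  have h1 : iIndepFun (fun (i : J) (ω : J → Bool) => ω i) (coinM J) :=
    iIndepFun_infinitePi (P := fun _ : J => uniformOn (univ : Set Bool)) (X := fun _ b => b)
      fun _ => measurable_id
  exact (Indep_iff _ _ _).1 (indep_iSup_of_disjoint
    (fun i => (measurable_pi_apply i).comap_le) h1.iIndep h) s t hs ht

theorem coin_bit (j : J) (b : Bool) : coinM J {ω | ω j = b} = 2⁻¹ := by
  have h := (measurePreserving_eval_infinitePi (fun _ : J => uniformOn (univ : Set Bool))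
    j).measure_preimage (s := {b}) (measurableSet_singleton b).nullMeasurableSet
  rw [uniformOn_univ] at h
  simp only [Measure.count_singleton, Fintype.card_bool, Nat.cast_ofNat, one_div] at h
  exact h

theorem cyl_bit {A : Set J} {j : J} (hj : j ∈ A) (b : Bool) :
    MeasurableSet[cyl A] {ω : J → Bool | ω j = b} :=
  measurable_cylinderEvent_apply (X := fun _ : J => Bool) hj (measurableSet_singleton b)

/-- binary address of the first `n` fresh bits -/
def addr (c : ℕ → J) (ω : J → Bool) : ℕ → ℕ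
  | 0 => 1
  | n + 1 => 2 * addr c ω n + (ω (c n)).toNat

theorem addr_bounds (c : ℕ → J) (ω : J → Bool) (n : ℕ) :
    2 ^ n ≤ addr c ω n ∧ addr c ω n < 2 ^ (n + 1) := by
  induction n with
  | zero => simp [addr]
  | succ n ih =>
    have := Bool.toNat_le (ω (c n))
    simp only [addr, pow_succ] at ih ⊢
    omega

theorem addr_succ_set (c : ℕ → J) (n k : ℕ) :
    {ω | addr c ω (n + 1) = k} =
      {ω | addr c ω n = k / 2} ∩ {ω | ω (c n) = decide (k % 2 = 1)} := by
  ext ω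
  simp only [addr, mem_ofPred_eq, mem_inter_iff]
  cases ω (c n) <;> simp <;> omega

theorem addr_meas (c : ℕ → J) (n k : ℕ) :
    MeasurableSet[cyl (c '' Iio n)] {ω | addr c ω n = k} := by
  induction n generalizing k with
  | zero => simp [addr]
  | succ n ih =>
    rw [addr_succ_set]
    exact (cyl_mono (image_mono (Iio_subset_Iio n.le_succ)) _ (ih _)).inter
      (cyl_bit (mem_image_of_mem c (mem_Iio.2 n.lt_succ_self)) _)

theorem addr_measure {c : ℕ → J} (hc : Function.Injective c) (n k : ℕ) :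
    coinM J {ω | addr c ω n = k} ≤ 2⁻¹ ^ n := by
  induction n generalizing k with
  | zero => simpa using prob_le_one
  | succ n ih =>
    rw [addr_succ_set, cyl_indep (B := {c n}) ?_ (addr_meas c n _) (cyl_bit (mem_singleton _) _), coin_bit,
      pow_succ]
    · gcongr
      exact ih _
    · rw [disjoint_singleton_right]
      rintro ⟨i, hi, h⟩
      exact absurd (hc h) (ne_of_lt hi)

theorem good_cnd {A : Set J} (hA : #A ≤ 𝔠) (hJ : 𝔠 < #J) :
    Good (coinM J) (Cnd (cyl A) (coinM J)) := by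
  refine ⟨cnd_pu (cyl_le A), fun B hB => ?_⟩
  obtain ⟨S, hS, hBS⟩ := exists_support_RS B
  have hinf : (A ∪ S)ᶜ.Infinite := by
    intro hf
    have h1 : #(univ : Set J) ≤ 𝔠 := by
      rw [← union_compl_self (A ∪ S)]
      refine (mk_union_le _ _).trans ?_
      have h2 : #(A ∪ S : Set J) ≤ 𝔠 := (mk_union_le _ _).trans (add_le_of_le aleph0_le_continuum
        hA ((le_aleph0_iff_set_countable.2 hS).trans aleph0_le_continuum))
      exact add_le_of_le aleph0_le_continuum h2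
        ((le_aleph0_iff_set_countable.2 hf.countable).trans aleph0_le_continuum)
    rw [mk_univ] at h1
    exact absurd hJ (not_lt.2 h1)
  let c : ℕ → J := fun n => hinf.natEmbedding _ n
  have hc : Function.Injective c := fun i j h => (hinf.natEmbedding _).injective (Subtype.ext h)
  refine cnd_tall (cyl_le A) B hB ⟨cyl (A ∪ S), cyl_mono subset_union_left, cyl_le _⟩
    (fun n => cyl_mono subset_union_right _ (hBS n))
    (fun k => {ω | addr c ω (Nat.log 2 k) = k}) (fun k => cyl_le _ _ (addr_meas c _ _))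
    (fun ω => ?_) (fun k => 2⁻¹ ^ Nat.log 2 k) ?_ (by simp) ?_ fun k T hT => ?_
  · refine infinite_of_forall_exists_gt fun n => ⟨addr c ω n, ?_, ?_⟩
    · have := addr_bounds c ω n
      simp only [mem_ofPred_eq]
      rw [Nat.log_eq_of_pow_le_of_lt_pow this.1 this.2]
    · exact Nat.lt_two_pow_self.trans_le (addr_bounds c ω n).1
  · intro i j hij
    exact pow_le_pow_of_le_one zero_le (by simp) (Nat.log_mono_right hij)
  · refine (ENNReal.tendsto_pow_atTop_nhds_zero_of_lt_one (by simp)).comp ?_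
    refine tendsto_atTop_atTop_of_monotone (fun i j hij => Nat.log_mono_right hij) fun n =>
      ⟨2 ^ n, by rw [Nat.log_pow (by norm_num)]⟩
  · rw [cyl_indep (B := c '' Iio (Nat.log 2 k)) ?_ hT (addr_meas c _ _), mul_comm]
    · gcongr
      exact addr_measure hc _ _
    · rw [disjoint_right]
      rintro _ ⟨i, -, rfl⟩
      exact (hinf.natEmbedding _ i).2

theorem exists_countable_preimage {α β : Type} {f : α → β} {s : Set α} {D : Set β}
    (hD : D ⊆ f '' s) (hc : D.Countable) : ∃ D' ⊆ s, D'.Countable ∧ f '' D' = D := by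
  choose u hu1 hu2 using fun d : D => hD d.2
  have := hc.to_subtype
  refine ⟨range u, range_subset_iff.2 hu1, countable_range u, ?_⟩
  ext b
  constructor
  · rintro ⟨_, ⟨d, rfl⟩, rfl⟩
    rw [hu2]
    exact d.2
  · exact fun hb => ⟨u ⟨b, hb⟩, mem_range_self _, hu2 _⟩

/-- the main measure-theoretic theorem -/
theorem exists_good (hJ : 𝔠 < #J) {p : Set (J → Bool)} (hp : MeasurableSet p)
    (hp0 : coinM J p ≠ 0) {g : RS (J → Bool) → Set (J → Bool)} (hg : IsUF (coinM J) p g) :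
    ∃ q ⊆ p, MeasurableSet q ∧ coinM J q ≠ 0 ∧ ∃ Y, Good (coinM J) Y ∧
      ∀ E ∈ Y, coinM J (q ∩ g E) = 0 := by
  by_contra hcon
  push Not at hcon
  have h1 : ∀ y : ℕ → (J → Bool) → ℝ≥0∞, ∃ F : RS (J → Bool), (∀ n, Measurable (y n)) →
      (∀ᵐ ω ∂(coinM J), Tendsto (fun n => y n ω) atTop (𝓝 0)) →
      F ∈ Summ (coinM J) y ∧ ∀ᵐ ω ∂(coinM J), ω ∈ p → ω ∈ g F := by
    intro y
    by_cases hy : (∀ n, Measurable (y n)) ∧
        ∀ᵐ ω ∂(coinM J), Tendsto (fun n => y n ω) atTop (𝓝 0)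
    swap
    · exact ⟨RS.univ, fun h h' => absurd ⟨h, h'⟩ hy⟩
    have hgood := good_summ hy.1 hy.2
    obtain ⟨D, hD, hDc, hDs⟩ := Measure.exists_ae_subset_biUnion_countable (coinM J)
      (C := g '' Summ (coinM J) y) (by rintro _ ⟨E, -, rfl⟩; exact hg.meas E)
    obtain ⟨D', hD', hD'c, rfl⟩ := exists_countable_preimage hD hDc
    obtain ⟨F, hF, hF'⟩ := hgood.pu_countable hD'c hD'
    refine ⟨F, fun _ _ => ⟨hF, ?_⟩⟩
    have h2 : coinM J (p \ g F) = 0 := by
      by_contra h0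
      obtain ⟨E, hE, hE0⟩ := hcon (p \ g F) sdiff_subset (hp.diff (hg.meas F)) h0 _ hgood
      refine hE0 (measure_eq_zero_iff_ae_notMem.2 ?_)
      have h3 : ∀ᵐ ω ∂(coinM J), ∀ E' ∈ D', ω ∈ p → ω ∈ g E' → ω ∈ g F := by
        refine (ae_ball_iff hD'c).2 fun E' hE' => ?_
        filter_upwards [hg.up E' F, hF' E' hE'] with ω h1 h2 h3 h4 using h1 h3 h4 h2
      filter_upwards [hDs _ ⟨E, hE, rfl⟩, h3] with ω h4 h5 h6
      obtain ⟨_, ⟨E', hE', rfl⟩, h7⟩ := h4 h6.2
      exact h6.1.2 (h5 E' hE' h6.1.1 h7)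
    filter_upwards [measure_eq_zero_iff_ae_notMem.1 h2] with ω h3 h4
    by_contra h5
    exact h3 ⟨h4, h5⟩
  choose F hF using h1
  choose sp hsp hsm using fun E : RS (J → Bool) => exists_support_RS E
  obtain ⟨A, hA, hcl⟩ := exists_closed
    (fun S : Set J => ⋃ y ∈ {y : ℕ → (J → Bool) → ℝ≥0∞ | ∀ n, Measurable[cyl S] (y n)}, sp (F y))
    (fun S hS => by
      refine (mk_biUnion_le _ _).trans ?_
      refine mul_le_of_le aleph0_le_continuum (card_funs hS) (ciSup_le' fun y => ?_)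
      exact (le_aleph0_iff_set_countable.2 (hsp _)).trans aleph0_le_continuum)
  obtain ⟨E, ⟨y, hy, hy0, hb⟩, hE0⟩ := hcon p Subset.rfl hp hp0 _ (good_cnd hA hJ)
  obtain ⟨S, hSA, hS, hyS⟩ := exists_support_fun hy
  have hFA : sp (F y) ⊆ A := fun j hj => hcl S hSA hS (mem_biUnion (t := fun y => sp (F y))
    (show y ∈ {y : ℕ → (J → Bool) → ℝ≥0∞ | ∀ n, Measurable[cyl S] (y n)} from hyS) hj)
  obtain ⟨h2, h3⟩ := hF y (fun n => (hy n).mono (cyl_le A) le_rfl) hy0
  have h4 := cnd_miss (cyl_le A) hy hb (fun n => cyl_mono hFA _ (hsm (F y) n)) h2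
  refine hE0 (measure_eq_zero_iff_ae_notMem.2 ?_)
  filter_upwards [h3, h4, hg.disj E (F y)] with ω h5 h6 h7 h8
  exact h7 h8.1 h8.2 (h5 h8.1) h6

end Pool.Agent.MP_deb3c6_lc

end MrgPart2

-- ======== part 3: formerly Pool.Agent.MP_deb3c6_lc.Borel
section MrgPart3

/-! Borel subsets of `J → Bool` are measurable for the completed product measure (Kakutani). -/

open MeasureTheory ProbabilityTheory Set Filter Topology

namespace Pool.Agent.MP_deb3c6_lc

variable {J : Type}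

def cylS (T : Set J) (x : J → Bool) : Set (J → Bool) := {ω | ∀ j ∈ T, ω j = x j}

theorem cylS_meas {T : Set J} (hT : T.Finite) (x : J → Bool) :
    MeasurableSet[cyl T] (cylS T x) := by
  have : cylS T x = ⋂ j ∈ T, {ω : J → Bool | ω j = x j} := by
    ext ω
    simp [cylS]
  rw [this]
  exact MeasurableSet.biInter hT.countable fun j hj => cyl_bit hj _

theorem cylS_pos {T : Set J} (hT : T.Finite) (x : J → Bool) : coinM J (cylS T x) ≠ 0 := by
  induction T, hT using Set.Finite.induction_on with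
  | empty => simp [cylS]
  | @insert a s ha hs ih =>
    have : cylS (insert a s) x = {ω | ω a = x a} ∩ cylS s x := by
      ext ω
      simp [cylS]
    rw [this, cyl_indep (A := {a}) (disjoint_singleton_left.2 ha) (cyl_bit (mem_singleton _) _)
      (cylS_meas hs x), coin_bit]
    exact mul_ne_zero (by simp) ih

theorem open_nullMeasurable {U : Set (J → Bool)} (hU : IsOpen U) :
    NullMeasurableSet U (coinM J) := by
  obtain ⟨D, hD, hDc, hDs⟩ := Measure.exists_ae_subset_biUnion_countable (coinM J)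
    (C := {s | MeasurableSet s ∧ s ⊆ U}) fun s hs => hs.1
  have hU0 : MeasurableSet (⋃₀ D) := MeasurableSet.sUnion hDc fun s hs => (hD hs).1
  obtain ⟨S, -, hS, hSm⟩ := exists_support (A := univ) (t := ⋃₀ D) (by
    rw [show cyl (univ : Set J) = MeasurableSpace.pi from cylinderEvents_univ]
    exact hU0)
  let C : Set (J × Bool) → Set (J → Bool) := fun F => {ω | ∀ a ∈ F, ω a.1 = a.2}
  have hc : {F : Set (J × Bool) | (F.Finite ∧ F ⊆ S ×ˢ univ) ∧
      coinM J (C F \ ⋃₀ D) = 0}.Countable :=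
    (countable_ofPred_finite_subset (hS.prod countable_univ)).mono fun F hF => hF.1
  have h0 : coinM J (U \ ⋃₀ D) = 0 := by
    refine measure_mono_null ?_ ((measure_biUnion_null_iff hc (s := fun F => C F \ ⋃₀ D)).2
      fun F hF => hF.2)
    rintro ω ⟨hω, hω'⟩
    obtain ⟨T, u, hu, hTU⟩ := isOpen_pi_iff.1 hU ω hω
    have h1 : cylS T ω ⊆ U := fun ω' h => hTU fun j hj => by rw [h j hj]; exact (hu j hj).2
    have h2 : coinM J (cylS T ω \ ⋃₀ D) = 0 :=
      ae_le_set.1 (hDs _ ⟨cyl_le _ _ (cylS_meas T.finite_toSet ω), h1⟩)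
    have hf1 : ((T : Set J) ∩ S).Finite := T.finite_toSet.inter_of_left S
    have hf2 : ((T : Set J) \ S).Finite := T.finite_toSet.sdiff
    have h3 : cylS T ω \ ⋃₀ D = (cylS (T ∩ S) ω \ ⋃₀ D) ∩ cylS (T \ S) ω := by
      ext ω'
      simp only [cylS, Set.mem_sdiff, mem_ofPred_eq, mem_inter_iff]
      constructor
      · rintro ⟨h, h'⟩
        exact ⟨⟨fun j hj => h j hj.1, h'⟩, fun j hj => h j hj.1⟩
      · rintro ⟨⟨h, h'⟩, h''⟩
        refine ⟨fun j hj => ?_, h'⟩
        by_cases hS : j ∈ S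
        · exact h j ⟨hj, hS⟩
        · exact h'' j ⟨hj, hS⟩
    rw [h3, cyl_indep (A := S) (B := T \ S) disjoint_sdiff_right
      ((cyl_mono inter_subset_right _ (cylS_meas hf1 ω)).diff hSm) (cylS_meas hf2 ω)] at h2
    have h4 := (mul_eq_zero.1 h2).resolve_right (cylS_pos hf2 ω)
    have h5 : C ((fun j => (j, ω j)) '' (T ∩ S)) = cylS (T ∩ S) ω := by
      ext ω'
      simp only [C, cylS, mem_ofPred_eq, forall_mem_image]
    refine mem_biUnion (x := (fun j => (j, ω j)) '' (T ∩ S)) ⟨⟨hf1.image _, ?_⟩, by rw [h5, h4]⟩ ?_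
    · rintro _ ⟨j, hj, rfl⟩
      exact ⟨hj.2, mem_univ _⟩
    · rw [h5]
      exact ⟨fun j _ => rfl, hω'⟩
  refine hU0.nullMeasurableSet.congr (ae_eq_set.2 ⟨?_, h0⟩)
  rw [sdiff_eq_empty.2 (sUnion_subset fun s hs => (hD hs).2), measure_empty]

theorem borel_nullMeasurable {s : Set (J → Bool)} (hs : MeasurableSet[borel (J → Bool)] s) :
    NullMeasurableSet s (coinM J) := by
  induction s, hs using MeasurableSpace.generateFrom_induction with
  | hC t ht _ => exact open_nullMeasurable ht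
  | empty => exact nullMeasurableSet_empty
  | compl t _ ih => exact ih.compl
  | iUnion f _ ih => exact NullMeasurableSet.iUnion ih

theorem borel_of_measurable {s : Set (J → Bool)} (hs : MeasurableSet s) :
    MeasurableSet[borel (J → Bool)] s := pi_le_borel_pi s hs

end Pool.Agent.MP_deb3c6_lc

end MrgPart3

-- ======== part 4: formerly Pool.Agent.MP_deb3c6_lc.Link
section MrgPart4

/-! Boolean values, and names for sets of integers and for ultrafilters. -/

open MeasureTheory ProbabilityTheory Set Filter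

namespace Pool.Agent.MP_deb3c6_lc

open Pool.Agent.Forcing92 Fml

variable {ι : Type}

instance : IsProbabilityMeasure (coin ι) := inferInstanceAs (IsProbabilityMeasure (coinM _))

/-- `p ⊆ S` modulo a null set -/
def Bel (p : Cond ι) (S : Set (ι × ℕ → Bool)) : Prop := ∀ᵐ ω ∂(coin ι), ω ∈ p.1 → ω ∈ S

theorem cle_iff {p q : Cond ι} : cle ι p q ↔ Bel p q.1 := ae_le_set.symm

theorem Bel.trans {p q : Cond ι} {S : Set (ι × ℕ → Bool)} (h : cle ι p q) (h' : Bel q S) :
    Bel p S := by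
  filter_upwards [cle_iff.1 h, h'] with ω h1 h2 h3 using h2 (h1 h3)

instance : Pre (cle ι) where
  refl _ := cle_iff.2 (ae_of_all _ fun _ h => h)
  trans h h' := cle_iff.2 (Bel.trans h (cle_iff.1 h'))

def mkc (s : Set (ι × ℕ → Bool)) (hs : MeasurableSet s) (h0 : coin ι s ≠ 0) : Cond ι :=
  ⟨s, borel_of_measurable hs, h0⟩

def ctop : Cond ι := mkc univ MeasurableSet.univ (by simp)

theorem le_ctop (p : Cond ι) : cle ι p ctop := cle_iff.2 (ae_of_all _ fun _ _ => mem_univ _)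

theorem not_ae_notMem (p : Cond ι) : ¬ ∀ᵐ ω ∂(coin ι), ω ∉ p.1 :=
  fun h => p.2.2 (measure_eq_zero_iff_ae_notMem.2 h)

theorem Bel.ne_zero {p : Cond ι} {S : Set (ι × ℕ → Bool)} (h : Bel p S) : coin ι S ≠ 0 := by
  intro h0
  refine not_ae_notMem p ?_
  filter_upwards [h, measure_eq_zero_iff_ae_notMem.1 h0] with ω h1 h2 h3 using h2 (h1 h3)

theorem Bel.contra {p : Cond ι} {S : Set (ι × ℕ → Bool)} (h : Bel p S) (h' : Bel p Sᶜ) :
    False := by
  refine not_ae_notMem p ?_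
  filter_upwards [h, h'] with ω h1 h2 h3 using h2 h3 (h1 h3)

theorem exists_cond {p : Cond ι} {S : Set (ι × ℕ → Bool)} (hS : MeasurableSet S)
    (h : ¬ Bel p Sᶜ) : ∃ q : Cond ι, cle ι q p ∧ MeasurableSet q.1 ∧ q.1 ⊆ S := by
  obtain ⟨t, ht, hpt⟩ : ∃ t, MeasurableSet t ∧ p.1 =ᵐ[coin ι] t :=
    borel_nullMeasurable (J := ι × ℕ) p.2.1
  refine ⟨mkc (t ∩ S) (ht.inter hS) fun h0 => h ?_, cle_iff.2 ?_, ht.inter hS, inter_subset_right⟩
  · filter_upwards [hpt.mem_iff, measure_eq_zero_iff_ae_notMem.1 h0] with ω h1 h2 h3 h4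
    exact h2 ⟨h1.1 h3, h4⟩
  · filter_upwards [hpt.mem_iff] with ω h1 h2 using h1.2 h2.1

theorem exists_cond' {p : Cond ι} {S : Set (ι × ℕ → Bool)} (hS : MeasurableSet S)
    (h : ¬ Bel p Sᶜ) : ∃ q : Cond ι, cle ι q p ∧ Bel q S :=
  let ⟨q, h1, _, h2⟩ := exists_cond hS h
  ⟨q, h1, ae_of_all _ h2⟩

theorem bel_of_forall {p : Cond ι} {S : Set (ι × ℕ → Bool)} (hS : MeasurableSet S)
    (h : ∀ q, cle ι q p → Bel q S → False) : Bel p Sᶜ := by
  by_contra hn
  obtain ⟨q, h1, h2⟩ := exists_cond' hS hn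
  exact h q h1 h2

theorem bel_of_dense {p : Cond ι} {S : Set (ι × ℕ → Bool)} (hS : MeasurableSet S)
    (h : ∀ q, cle ι q p → ∃ r, cle ι r q ∧ Bel r S) : Bel p S := by
  rw [← compl_compl S]
  refine bel_of_forall hS.compl fun q hq hS' => ?_
  obtain ⟨r, hr, h'⟩ := h q hq
  exact h'.contra (Bel.trans hr hS')

theorem exists_meas_version (p : Cond ι) :
    ∃ q : Cond ι, cle ι q p ∧ cle ι p q ∧ MeasurableSet q.1 := by
  obtain ⟨t, ht, hpt⟩ : ∃ t, MeasurableSet t ∧ p.1 =ᵐ[coin ι] t :=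
    borel_nullMeasurable (J := ι × ℕ) p.2.1
  refine ⟨mkc t ht (by rw [← measure_congr hpt]; exact p.2.2), cle_iff.2 ?_, cle_iff.2 ?_, ht⟩
  · filter_upwards [hpt.mem_iff] with ω h using h.2
  · filter_upwards [hpt.mem_iff] with ω h using h.1

theorem exists_of_bel_iUnion {κ : Type} [Countable κ] {q : Cond ι}
    {S : κ → Set (ι × ℕ → Bool)} (hS : ∀ k, MeasurableSet (S k)) (h : Bel q (⋃ k, S k)) :
    ∃ r, cle ι r q ∧ ∃ k, Bel r (S k) := by
  by_contra hn
  have : ∀ k, Bel q (S k)ᶜ := fun k => bel_of_forall (hS k) fun r hr h' => hn ⟨r, hr, k, h'⟩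
  refine not_ae_notMem q ?_
  filter_upwards [h, ae_all_iff.2 this] with ω h1 h2 h3
  obtain ⟨k, hk⟩ := mem_iUnion.1 (h1 h3)
  exact h2 k h3 hk

theorem exists_core (φ : Cond ι → Prop) (mono : ∀ p q, cle ι q p → φ p → φ q) :
    ∃ D : Set (Cond ι), D.Countable ∧ (∀ d ∈ D, φ d ∧ MeasurableSet d.1) ∧
      ∀ q, φ q → Bel q (⋃ d : D, d.1.1) := by
  obtain ⟨D, hD, hDc, hDs⟩ := Measure.exists_ae_subset_biUnion_countable (coin ι)
    (C := Subtype.val '' {d : Cond ι | φ d ∧ MeasurableSet d.1})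
    (by rintro _ ⟨d, hd, rfl⟩; exact hd.2)
  obtain ⟨D', hD', hD'c, rfl⟩ := exists_countable_preimage hD hDc
  refine ⟨D', hD'c, hD', fun q hq => ?_⟩
  obtain ⟨q', h1, h2, h3⟩ := exists_meas_version q
  refine Bel.trans h2 ?_
  filter_upwards [hDs _ ⟨q', ⟨mono _ _ h1 hq, h3⟩, rfl⟩] with ω h4 h5
  obtain ⟨_, ⟨d, hd, rfl⟩, h6⟩ := h4 h5
  exact mem_iUnion.2 ⟨⟨d, hd⟩, h6⟩

theorem exists_val (a : Fml (Name (Cond ι))) :
    ∃ S, MeasurableSet S ∧ ∀ q, Forces (cle ι) a q ↔ Bel q S := by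
  obtain ⟨D, hc, hD, h⟩ := exists_core (Forces (cle ι) a) fun p q hq h => h.mono hq
  have := hc.to_subtype
  refine ⟨_, MeasurableSet.iUnion fun d : D => (hD d.1 d.2).2, fun q => ⟨h q, fun hq => ?_⟩⟩
  refine Forces.dense fun r hr => ?_
  obtain ⟨s, hs, d, hd⟩ := exists_of_bel_iUnion (fun d : D => (hD d.1 d.2).2) (Bel.trans hr hq)
  exact ⟨s, hs, (hD d.1 d.2).1.mono (cle_iff.2 hd)⟩

theorem exists_countable_witness {α : Type} (R : Cond ι → α → Prop)
    (mono : ∀ p q a, cle ι q p → R p a → R q a) :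
    ∃ D : Set α, D.Countable ∧ (∀ a ∈ D, ∃ q, R q a) ∧
      ∀ q a, R q a → ∃ r, cle ι r q ∧ ∃ b ∈ D, R r b := by
  obtain ⟨D, hc, hD, h⟩ := exists_core (fun q => ∃ a, R q a)
    fun p q hq ⟨a, h⟩ => ⟨a, mono p q a hq h⟩
  have := hc.to_subtype
  choose f hf using fun d : D => (hD d.1 d.2).1
  refine ⟨range f, countable_range f, ?_, fun q a hq => ?_⟩
  · rintro _ ⟨d, rfl⟩
    exact ⟨_, hf d⟩
  · obtain ⟨s, hs, d, hd⟩ := exists_of_bel_iUnion (fun d : D => (hD d.1 d.2).2) (h q ⟨a, hq⟩)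
    exact ⟨s, hs, f d, mem_range_self d, mono _ _ _ (cle_iff.2 hd) (hf d)⟩

/-- the Boolean value of a formula -/
noncomputable def val (a : Fml (Name (Cond ι))) : Set (ι × ℕ → Bool) := (exists_val a).choose

theorem val_meas (a : Fml (Name (Cond ι))) : MeasurableSet (val a) := (exists_val a).choose_spec.1

theorem forces_val {a : Fml (Name (Cond ι))} {q : Cond ι} : Forces (cle ι) a q ↔ Bel q (val a) :=
  (exists_val a).choose_spec.2 q

abbrev nn (n : ℕ) : Name (Cond ι) := natName ctop n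
abbrev om : Name (Cond ι) := omegaName ctop

def setName (E : RS (ι × ℕ → Bool)) : Name (Cond ι) :=
  Name.mk {n // coin ι (E.ev n) ≠ 0} (fun n => nn n) (fun n => mkc (E.ev n) (E.meas n) n.2)

theorem mem_setName {E : RS (ι × ℕ → Bool)} {x : Name (Cond ι)} {p : Cond ι} :
    fMem (cle ι) x (setName E) p ↔
      ∀ q, cle ι q p → ∃ r, cle ι r q ∧ ∃ n, Bel r (E.ev n) ∧ fEq (cle ι) (nn n) x r := by
  rw [setName, fMem_mk_iff]
  refine forall_congr' fun q => imp_congr_right fun _ => exists_congr fun r =>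
    and_congr_right fun _ => ⟨?_, ?_⟩
  · rintro ⟨j, h1, h⟩
    exact ⟨j, cle_iff.1 h1, h⟩
  · rintro ⟨j, hj, h⟩
    exact ⟨⟨j, hj.ne_zero⟩, cle_iff.2 hj, h⟩

theorem nn_mem_setName {E : RS (ι × ℕ → Bool)} {n : ℕ} {p : Cond ι} :
    fMem (cle ι) (nn n) (setName E) p ↔ Bel p (E.ev n) := by
  rw [mem_setName]
  constructor
  · intro h
    refine bel_of_dense (E.meas n) fun q hq => ?_
    obtain ⟨r, hr, m, h1, h2⟩ := h q hq
    rw [natName_inj le_ctop h2] at h1
    exact ⟨r, hr, h1⟩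
  · exact fun h q hq => ⟨q, lrefl q, n, Bel.trans hq h, fEq_refl _ _⟩

theorem setName_sub_om (E : RS (ι × ℕ → Bool)) (p : Cond ι) :
    Forces (cle ι) (sub (setName E) om) p := by
  refine forces_sub.2 fun z q _ hz => (fMem_omegaName le_ctop).2 fun r hr => ?_
  obtain ⟨s, hs, n, -, h⟩ := mem_setName.1 hz r hr
  exact ⟨s, hs, n, h⟩

theorem sub_of_nn {X Y : Name (Cond ι)} {p : Cond ι} (hX : Forces (cle ι) (sub X om) p)
    (h : ∀ n q, cle ι q p → fMem (cle ι) (nn n) X q → fMem (cle ι) (nn n) Y q) :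
    Forces (cle ι) (sub X Y) p := by
  refine forces_sub.2 fun z q hq hz => fMem_dense fun r hr => ?_
  obtain ⟨s, hs, n, he⟩ := (fMem_omegaName le_ctop).1 (forces_sub.1 hX z q hq hz) r hr
  have hsq := ltrans hs hr
  exact ⟨s, hs, fMem_congr_left he
    (h n s (ltrans hsq hq) (fMem_congr_left (fEq_symm he) (fMem_mono hsq hz)))⟩

theorem eq_of_sub {X Y : Name (Cond ι)} {p : Cond ι} (h : Forces (cle ι) (sub X Y) p)
    (h' : Forces (cle ι) (sub Y X) p) : fEq (cle ι) X Y p :=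
  fEq_of_ext fun z q hq => ⟨forces_sub.1 h z q hq, forces_sub.1 h' z q hq⟩

theorem sub_of_eq {X Y : Name (Cond ι)} {p : Cond ι} (h : fEq (cle ι) X Y p) :
    Forces (cle ι) (sub X Y) p :=
  forces_sub.2 fun _ _ hq hz => fMem_congr_right (fEq_mono hq h) hz

theorem sub_trans {X Y Z : Name (Cond ι)} {p : Cond ι} (h : Forces (cle ι) (sub X Y) p)
    (h' : Forces (cle ι) (sub Y Z) p) : Forces (cle ι) (sub X Z) p :=
  forces_sub.2 fun z q hq hz => forces_sub.1 h' z q hq (forces_sub.1 h z q hq hz)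

/-- the trace of a name on the integers -/
noncomputable def tr (X : Name (Cond ι)) : RS (ι × ℕ → Bool) :=
  ⟨fun n => val (mem (nn n) X), fun _ => val_meas _⟩

theorem eq_setName {X : Name (Cond ι)} {p : Cond ι} (hX : Forces (cle ι) (sub X om) p) :
    fEq (cle ι) X (setName (tr X)) p :=
  eq_of_sub (sub_of_nn hX fun _ _ _ h => nn_mem_setName.2 (forces_val.1 h))
    (sub_of_nn (setName_sub_om _ _) fun _ _ _ h => forces_val.2 (nn_mem_setName.1 h))

theorem sub_setName {E F : RS (ι × ℕ → Bool)} {p : Cond ι} :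
    Forces (cle ι) (sub (setName E) (setName F)) p ↔
      ∀ᵐ ω ∂(coin ι), ω ∈ p.1 → E.sl ω ⊆ F.sl ω := by
  constructor
  · intro h
    have : ∀ n, Bel p (E.ev n \ F.ev n)ᶜ := fun n =>
      bel_of_forall ((E.meas n).diff (F.meas n)) fun q hq hb => by
        have h1 : Bel q (E.ev n) := by filter_upwards [hb] with ω h1 h2 using (h1 h2).1
        have h2 : Bel q (F.ev n)ᶜ := by filter_upwards [hb] with ω h1 h2 using (h1 h2).2
        exact (nn_mem_setName.1 (forces_sub.1 h _ q hq (nn_mem_setName.2 h1))).contra h2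
    filter_upwards [ae_all_iff.2 this] with ω h1 h2 n hn
    by_contra h3
    exact h1 n h2 ⟨hn, h3⟩
  · intro h
    refine sub_of_nn (setName_sub_om _ _) fun n q hq h1 => nn_mem_setName.2 ?_
    filter_upwards [h, cle_iff.1 hq, nn_mem_setName.1 h1] with ω h2 h3 h4 h5
    exact h2 (h3 h5) (h4 h5)

def famName (g : RS (ι × ℕ → Bool) → Set (ι × ℕ → Bool)) (hg : ∀ E, MeasurableSet (g E)) :
    Name (Cond ι) :=
  Name.mk {E // coin ι (g E) ≠ 0} (fun E => setName E) (fun E => mkc (g E) (hg E) E.2)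

variable {g : RS (ι × ℕ → Bool) → Set (ι × ℕ → Bool)}

theorem mem_famName {hg : ∀ E, MeasurableSet (g E)} {x : Name (Cond ι)} {p : Cond ι} :
    fMem (cle ι) x (famName g hg) p ↔
      ∀ q, cle ι q p → ∃ r, cle ι r q ∧ ∃ E, Bel r (g E) ∧ fEq (cle ι) (setName E) x r := by
  rw [famName, fMem_mk_iff]
  refine forall_congr' fun q => imp_congr_right fun _ => exists_congr fun r =>
    and_congr_right fun _ => ⟨?_, ?_⟩
  · rintro ⟨j, h1, h⟩
    exact ⟨j, cle_iff.1 h1, h⟩
  · rintro ⟨j, hj, h⟩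
    exact ⟨⟨j, hj.ne_zero⟩, cle_iff.2 hj, h⟩

theorem mem_famName_of {hg : ∀ E, MeasurableSet (g E)} {E : RS (ι × ℕ → Bool)} {p : Cond ι}
    (h : Bel p (g E)) : fMem (cle ι) (setName E) (famName g hg) p :=
  mem_famName.2 fun q hq => ⟨q, lrefl q, E, Bel.trans hq h, fEq_refl _ _⟩

theorem bel_up {p q : Cond ι} (hg : IsUF (coin ι) p.1 g) (hq : cle ι q p)
    {E F : RS (ι × ℕ → Bool)} (hE : Bel q (g E))
    (h : ∀ᵐ ω ∂(coin ι), ω ∈ q.1 → (E.sl ω \ F.sl ω).Finite) : Bel q (g F) := by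
  filter_upwards [hg.up E F, cle_iff.1 hq, hE, h] with ω h1 h2 h3 h4 h5
  exact h1 (h2 h5) (h3 h5) (h4 h5)

theorem bel_up' {p q : Cond ι} (hg : IsUF (coin ι) p.1 g) (hq : cle ι q p)
    {E F : RS (ι × ℕ → Bool)} (hE : Bel q (g E))
    (h : Forces (cle ι) (sub (setName E) (setName F)) q) : Bel q (g F) := by
  refine bel_up hg hq hE ?_
  filter_upwards [sub_setName.1 h] with ω h1 h2
  rw [sdiff_eq_empty.2 (h1 h2)]
  exact finite_empty

theorem setName_mem_famName {p q : Cond ι} (hg : IsUF (coin ι) p.1 g) (hq : cle ι q p)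
    {E : RS (ι × ℕ → Bool)} :
    fMem (cle ι) (setName E) (famName g hg.meas) q ↔ Bel q (g E) := by
  refine ⟨fun h => bel_of_dense (hg.meas E) fun r hr => ?_, mem_famName_of⟩
  obtain ⟨s, hs, F, h1, h2⟩ := mem_famName.1 h r hr
  exact ⟨s, hs, bel_up' hg (ltrans hs (ltrans hr hq)) h1 (sub_of_eq h2)⟩

/-- constant random sets -/
def cst (s : Set ℕ) : RS (ι × ℕ → Bool) := ⟨fun n => {_ω | n ∈ s}, fun _ => MeasurableSet.const _⟩

@[simp] theorem sl_cst (s : Set ℕ) (ω : ι × ℕ → Bool) : (cst s).sl ω = s := rfl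

theorem forces_ult_famName {p : Cond ι} (hg : IsUF (coin ι) p.1 g) :
    Forces (cle ι) (ult om (famName g hg.meas)) p := by
  refine ⟨forces_allIn.2 fun X q hq hX => ⟨?_, ?_⟩, forces_allIn.2 fun X q hq hX Y => ?_,
    forces_allIn.2 fun X q hq hX => forces_allIn.2 fun Y r hr hY => ?_, fun X => ?_,
    forces_allIn.2 fun x q hq hx => ?_⟩
  · refine Forces.dense fun r hr => ?_
    obtain ⟨s, hs, E, -, h2⟩ := mem_famName.1 hX r hr
    exact ⟨s, hs, sub_trans (sub_of_eq (fEq_symm h2)) (setName_sub_om _ _)⟩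
  · intro r hr he
    obtain ⟨s, hs, E, h1, h2⟩ := mem_famName.1 hX r hr
    have h3 : Bel s (⋃ n, E.ev n) := by
      filter_upwards [hg.inf E, h1, cle_iff.1 (ltrans hs (ltrans hr hq))] with ω h3 h4 h5 h6
      obtain ⟨n, hn⟩ := (h3 (h5 h6) (h4 h6)).nonempty
      exact mem_iUnion.2 ⟨n, hn⟩
    obtain ⟨u, hu, n, h4⟩ := exists_of_bel_iUnion E.meas h3
    exact he (nn n) u (ltrans hu hs) (fMem_congr_right (fEq_mono hu h2) (nn_mem_setName.2 h4))
  · refine forces_imp.2 fun r hr hY => fMem_dense fun s hs => ?_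
    obtain ⟨u, hu, E, h1, h2⟩ := mem_famName.1 hX s (ltrans hs hr)
    have hur := ltrans hu hs
    have h3 := eq_setName (hY.2.mono hur)
    refine ⟨u, hu, fMem_congr_left (fEq_symm h3) (mem_famName_of ?_)⟩
    exact bel_up' hg (ltrans hur (ltrans hr hq)) h1
      (sub_trans (sub_of_eq h2) (sub_trans (hY.1.mono hur) (sub_of_eq h3)))
  · refine forces_exIn.2 fun s hs => ?_
    obtain ⟨u, hu, E, h1, h2⟩ := mem_famName.1 hX s (ltrans hs hr)
    obtain ⟨v, hv, F, h3, h4⟩ := mem_famName.1 hY u (ltrans hu hs)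
    refine ⟨v, ltrans hv hu, setName (E.inter F), mem_famName_of ?_,
      sub_trans (sub_setName.2 (ae_of_all _ fun ω _ => inter_subset_left))
        (sub_of_eq (fEq_mono hv h2)),
      sub_trans (sub_setName.2 (ae_of_all _ fun ω _ => inter_subset_right)) (sub_of_eq h4)⟩
    filter_upwards [hg.loc E F (E.inter F), Bel.trans hv h1, h3,
      cle_iff.1 (ltrans hv (ltrans hu (ltrans hs (ltrans hr hq))))] with ω h5 h6 h7 h8 h9
    exact h5 (h8 h9) (h6 h9) (h7 h9) (by simp)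
  · refine forces_imp.2 fun q hq hX => forces_or.2 fun r hr => ?_
    have h1 := eq_setName (hX.mono hr)
    by_cases h : Bel r (g (tr X))ᶜ
    · refine ⟨r, lrefl r, Or.inr (forces_exIn_of (setName (tr X).compl) (mem_famName_of ?_) ?_)⟩
      · filter_upwards [hg.cpl (tr X), h, cle_iff.1 (ltrans hr hq)] with ω h2 h3 h4 h5
        exact (h2 (h4 h5)).2 (h3 h5)
      · refine forces_allIn.2 fun n s hs hn u hu hn' => ?_
        obtain ⟨v, hv, m, h2, h3⟩ := mem_setName.1 hn u hu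
        have h4 : fMem (cle ι) (nn m) X v := fMem_congr_left (fEq_symm h3) (fMem_mono hv hn')
        exact (forces_val.1 (show Forces (cle ι) (mem (nn m) X) v from h4)).contra h2
    · obtain ⟨s, hs, h2⟩ := exists_cond' (hg.meas _) h
      exact ⟨s, hs, Or.inl (fMem_congr_left (fEq_symm (fEq_mono hs h1)) (mem_famName_of h2))⟩
  · refine forces_exIn.2 fun r hr => ?_
    obtain ⟨s, hs, n, he⟩ := (fMem_omegaName le_ctop).1 hx r hr
    refine ⟨s, hs, setName (cst {n}ᶜ), mem_famName_of ?_, fun u hu h => ?_⟩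
    · filter_upwards [hg.top (cst {n}ᶜ), cle_iff.1 (ltrans hs (ltrans hr hq))] with ω h1 h2 h3
      exact h1 (h2 h3) (by simp)
    · have := nn_mem_setName.1 (fMem_congr_left (fEq_symm (fEq_mono hu he)) h)
      exact this.ne_zero (by simp [cst])

/-- the trace of a name on the random sets -/
noncomputable def trU (W : Name (Cond ι)) (E : RS (ι × ℕ → Bool)) : Set (ι × ℕ → Bool) :=
  val (mem (setName E) W)

theorem mem_iff_trU {W : Name (Cond ι)} {E : RS (ι × ℕ → Bool)} {p : Cond ι} :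
    fMem (cle ι) (setName E) W p ↔ Bel p (trU W E) := forces_val (a := mem (setName E) W)

section ult

variable {W : Name (Cond ι)} {p : Cond ι}

theorem ult_sub (hW : Forces (cle ι) (ult om W) p) {X : Name (Cond ι)}
    (hX : fMem (cle ι) X W p) : Forces (cle ι) (sub X om) p :=
  (forces_allIn.1 hW.1 X p (lrefl p) hX).1

theorem ult_up (hW : Forces (cle ι) (ult om W) p) {X : Name (Cond ι)} {F : RS (ι × ℕ → Bool)}
    (hX : fMem (cle ι) X W p) (h : Forces (cle ι) (sub X (setName F)) p) :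
    fMem (cle ι) (setName F) W p :=
  forces_imp.1 (forces_allIn.1 hW.2.1 X p (lrefl p) hX (setName F)) p (lrefl p)
    ⟨h, setName_sub_om _ _⟩

theorem ult_inter (hW : Forces (cle ι) (ult om W) p) {E F : RS (ι × ℕ → Bool)}
    (hE : fMem (cle ι) (setName E) W p) (hF : fMem (cle ι) (setName F) W p) :
    fMem (cle ι) (setName (E.inter F)) W p := by
  refine fMem_dense fun q hq => ?_
  obtain ⟨r, hr, Z, h1, h2, h3⟩ := forces_exIn.1
    (forces_allIn.1 (forces_allIn.1 hW.2.2.1 _ p (lrefl p) hE) _ p (lrefl p) hF) q hq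
  have hW' := hW.mono (ltrans hr hq)
  refine ⟨r, hr, ult_up hW' h1 (sub_of_nn (ult_sub hW' h1) fun n s hs hn => ?_)⟩
  refine nn_mem_setName.2 ?_
  filter_upwards [nn_mem_setName.1 (forces_sub.1 h2 _ s hs hn),
    nn_mem_setName.1 (forces_sub.1 h3 _ s hs hn)] with ω h4 h5 h6 using ⟨h4 h6, h5 h6⟩

theorem ult_ne (hW : Forces (cle ι) (ult om W) p) (n : ℕ) :
    fMem (cle ι) (setName (cst {n}ᶜ)) W p := by
  refine fMem_dense fun q hq => ?_
  obtain ⟨r, hr, Z, h1, h2⟩ := forces_exIn.1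
    (forces_allIn.1 hW.2.2.2.2 _ p (lrefl p) (natName_mem_omega le_ctop n p)) q hq
  have hW' := hW.mono (ltrans hr hq)
  refine ⟨r, hr, ult_up hW' h1 (sub_of_nn (ult_sub hW' h1) fun m s hs hm => ?_)⟩
  refine nn_mem_setName.2 (ae_of_all _ fun ω _ => ?_)
  rintro rfl
  exact h2 s hs hm

theorem ult_cofin (hW : Forces (cle ι) (ult om W) p) (N : ℕ) :
    fMem (cle ι) (setName (cst (Ici N))) W p := by
  induction N with
  | zero => exact ult_up hW (ult_ne hW 0) (sub_setName.2 (ae_of_all _ fun ω _ => by simp))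
  | succ N ih =>
    refine ult_up hW (ult_inter hW ih (ult_ne hW N)) (sub_setName.2 (ae_of_all _ fun ω _ => ?_))
    intro n hn
    simp only [RS.sl_inter, sl_cst, mem_inter_iff, mem_Ici, mem_compl_iff,
      mem_singleton_iff] at hn ⊢
    omega

theorem isUF_trU (hW : Forces (cle ι) (ult om W) p) : IsUF (coin ι) p.1 (trU W) := by
  have hm : ∀ E, MeasurableSet (trU W E) := fun E => val_meas _
  refine ⟨hm, fun E E' E'' => ?_, fun E => ?_⟩
  · have : ∀ N : ℕ, Bel p ((trU W E ∩ trU W E' ∩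
        ⋂ n, ⋂ (_ : N ≤ n), ((E.ev n ∩ E'.ev n) \ E''.ev n)ᶜ) \ trU W E'')ᶜ := by
      intro N
      refine bel_of_forall ((((hm E).inter (hm E')).inter (MeasurableSet.iInter fun n =>
        MeasurableSet.iInter fun _ => (((E.meas n).inter (E'.meas n)).diff
          (E''.meas n)).compl)).diff (hm E'')) fun q hq hb => ?_
      have hW' := hW.mono hq
      have h1 : fMem (cle ι) (setName E) W q :=
        mem_iff_trU.2 (by filter_upwards [hb] with ω h h' using (h h').1.1.1)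
      have h2 : fMem (cle ι) (setName E') W q :=
        mem_iff_trU.2 (by filter_upwards [hb] with ω h h' using (h h').1.1.2)
      have h3 : fMem (cle ι) (setName E'') W q := by
        refine ult_up hW' (ult_inter hW' (ult_inter hW' h1 h2) (ult_cofin hW' N))
          (sub_setName.2 ?_)
        filter_upwards [hb] with ω h h' n hn
        by_contra h4
        exact mem_iInter₂.1 (h h').1.2 n hn.2 ⟨hn.1, h4⟩
      exact (mem_iff_trU.1 h3).contra (by filter_upwards [hb] with ω h h' using (h h').2)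
    filter_upwards [ae_all_iff.2 this] with ω h1 h2 h3 h4 h5
    obtain ⟨N, hN⟩ := RS.finite_iff.1 h5
    by_contra h6
    exact h1 N h2 ⟨⟨⟨h3, h4⟩, mem_iInter₂.2 hN⟩, h6⟩
  · have h1 : Bel p (trU W E ∩ trU W E.compl)ᶜ := by
      refine bel_of_forall ((hm _).inter (hm _)) fun q hq hb => ?_
      have hW' := hW.mono hq
      have h1 : fMem (cle ι) (setName E) W q :=
        mem_iff_trU.2 (by filter_upwards [hb] with ω h h' using (h h').1)
      have h2 : fMem (cle ι) (setName E.compl) W q :=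
        mem_iff_trU.2 (by filter_upwards [hb] with ω h h' using (h h').2)
      refine (forces_allIn.1 hW'.1 _ q (lrefl q) (ult_inter hW' h1 h2)).2 q (lrefl q)
        fun z r _ hz => ?_
      obtain ⟨s, -, n, h3, -⟩ := mem_setName.1 hz r (lrefl r)
      exact h3.ne_zero (by simp [RS.inter, RS.compl])
    have h2 : Bel p ((trU W E)ᶜ ∩ (trU W E.compl)ᶜ)ᶜ := by
      refine bel_of_forall ((hm _).compl.inter (hm _).compl) fun q hq hb => ?_
      obtain ⟨r, hr, h⟩ := forces_or.1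
        (forces_imp.1 (hW.2.2.2.1 (setName E)) q hq (setName_sub_om _ _)) q (lrefl q)
      rcases h with h | h
      · exact (mem_iff_trU.1 h).contra
          (by filter_upwards [Bel.trans hr hb] with ω h h' using (h h').1)
      · obtain ⟨s, hs, Y, h1, h2⟩ := forces_exIn.1 h r (lrefl r)
        have hW' := hW.mono (ltrans hs (ltrans hr hq))
        have h3 : fMem (cle ι) (setName E.compl) W s := by
          refine ult_up hW' h1 (sub_of_nn (ult_sub hW' h1) fun n u hu hn => ?_)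
          refine nn_mem_setName.2 (bel_of_forall (E.meas n) fun v hv h => ?_)
          exact forces_allIn.1 h2 _ u hu hn v hv (nn_mem_setName.2 h)
        exact (mem_iff_trU.1 h3).contra
          (by filter_upwards [Bel.trans (ltrans hs hr) hb] with ω h h' using (h h').2)
    filter_upwards [h1, h2] with ω h3 h4 h5
    have h6 := h3 h5
    have h7 := h4 h5
    simp only [mem_compl_iff, mem_inter_iff] at h6 h7
    tauto

theorem eq_famName (hW : Forces (cle ι) (ult om W) p) :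
    fEq (cle ι) W (famName (trU W) (isUF_trU hW).meas) p := by
  refine fEq_of_ext fun z q hq => ⟨fun h => ?_, fun h => fMem_dense fun r hr => ?_⟩
  · have h1 := eq_setName (ult_sub (hW.mono hq) h)
    exact fMem_congr_left (fEq_symm h1) (mem_famName_of (mem_iff_trU.1 (fMem_congr_left h1 h)))
  · obtain ⟨s, hs, E, h1, h2⟩ := mem_famName.1 h r hr
    exact ⟨s, hs, fMem_congr_left h2 (mem_iff_trU.2 h1)⟩

end ult

end Pool.Agent.MP_deb3c6_lc

end MrgPart4

-- ======== part 5: formerly Pool.Agent.MP_deb3c6_lc.Main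
section MrgPart5

/-! The closed sets given by good families are forced to be nowhere dense P-sets. -/

open MeasureTheory ProbabilityTheory Set Filter Cardinal

namespace Pool.Agent.MP_deb3c6_lc

open Pool.Agent.Forcing92 Fml

section SimLemmas

variable {V : Type 1} {R : V → V → Prop}

theorem sim_ult (hR : ∀ x, R x x) (w : V) {U U' : V} (h : R U U') :
    Sim R (ult w U) (ult w U') :=
  .and (.allIn hR h fun X => .and (.sub hR (hR X) (hR w)) (.neg (.emp hR (hR X))))
  (.and (.allIn hR h fun X => .all fun Y =>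
    .imp (.and (.sub hR (hR X) (hR Y)) (.sub hR (hR Y) (hR w))) (.mem (hR Y) h))
  (.and (.allIn hR h fun X => .allIn hR h fun Y => .exIn hR h fun Z =>
    .and (.sub hR (hR Z) (hR X)) (.sub hR (hR Z) (hR Y)))
  (.and (.all fun X => .imp (.sub hR (hR X) (hR w)) (.or (.mem (hR X) h)
    (.exIn hR h fun Y => .allIn hR (hR Y) fun n => .neg (.mem (hR n) (hR X)))))
  (.allIn hR (hR w) fun n => .exIn hR h fun X => .neg (.mem (hR n) (hR X))))))

theorem sim_star (hR : ∀ x, R x x) (w : V) {X X' S S' : V} (h : R X X') (h' : R S S') :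
    Sim R (star w X S) (star w X' S') :=
  .all fun W => .imp (.and (sim_ult hR w (hR W)) (.mem h (hR W))) (.mem (hR W) h')

theorem sim_opn (hR : ∀ x, R x x) (w : V) {O O' : V} (h : R O O') :
    Sim R (opn w O) (opn w O') :=
  .allIn hR h fun U => .and (sim_ult hR w (hR U))
    (.exIn hR (hR U) fun X => sim_star hR w (hR X) h)

theorem sim_cls (hR : ∀ x, R x x) (w : V) {F F' : V} (h : R F F') :
    Sim R (cls w F) (cls w F') :=
  .and (.allIn hR h fun U => sim_ult hR w (hR U)) (.all fun U =>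
    .imp (.and (sim_ult hR w (hR U)) (.neg (.mem (hR U) h)))
      (.exIn hR (hR U) fun X => .allIn hR h fun W => .neg (.mem (hR X) (hR W))))

theorem sim_nwd (hR : ∀ x, R x x) (w : V) {F F' : V} (h : R F F') :
    Sim R (nwd w F) (nwd w F') :=
  .allIn hR h fun U => .allIn hR (hR U) fun X => .neg (sim_star hR w (hR X) h)

theorem sim_pset (hR : ∀ x, R x x) (w : V) {F F' : V} (h : R F F') :
    Sim R (pset w F) (pset w F') :=
  .all fun s => .imp
    (.allIn hR (hR w) fun n => .all fun O => .imp (.app hR (hR s) (hR n) (hR O))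
      (.and (.and (sim_opn hR w (hR O)) (.sub hR h (hR O)))
        (.all fun O' => .imp (.app hR (hR s) (hR n) (hR O')) (.eq (hR O) (hR O')))))
    (.allIn hR h fun U => .exIn hR (hR U) fun X => .allIn hR (hR w) fun n => .all fun O =>
      .imp (.app hR (hR s) (hR n) (hR O)) (sim_star hR w (hR X) (hR O)))

end SimLemmas

variable {ι : Type}

theorem forces_star {X S : Name (Cond ι)} {p : Cond ι} :
    Forces (cle ι) (star om X S) p ↔ ∀ W q, cle ι q p → Forces (cle ι) (ult om W) q →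
      fMem (cle ι) X W q → fMem (cle ι) W S q := by
  simp only [star, forces_all, forces_imp, forces_and, forces_mem, and_imp]

theorem ult_congr {U U' : Name (Cond ι)} {p : Cond ι} (h : fEq (cle ι) U U' p)
    (hU : Forces (cle ι) (ult om U) p) : Forces (cle ι) (ult om U') p :=
  ((sim_ult (fun x => fEq_refl x p) om h).forces p (lrefl p)).1 hU

/-- the name for the set of ultrafilters missing the family `Y` -/
def Fname (Y : Set (RS (ι × ℕ → Bool))) : Name (Cond ι) :=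
  Name.mk {x : (RS (ι × ℕ → Bool) → Set (ι × ℕ → Bool)) × Cond ι //
      IsUF (coin ι) x.2.1 x.1 ∧ ∀ E ∈ Y, Bel x.2 (x.1 E)ᶜ}
    (fun x => famName x.1.1 x.2.1.meas) (fun x => x.1.2)

variable {Y : Set (RS (ι × ℕ → Bool))}

theorem mem_Fname {W : Name (Cond ι)} {p : Cond ι} :
    fMem (cle ι) W (Fname Y) p ↔
      Forces (cle ι) (ult om W) p ∧ ∀ E ∈ Y, Bel p (trU W E)ᶜ := by
  constructor
  · intro h
    refine ⟨Forces.dense fun q hq => ?_, fun E hE =>
      bel_of_forall (val_meas _) fun q hq hb => ?_⟩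
    · obtain ⟨r, hr, x, h1, h2⟩ := h q hq
      exact ⟨r, hr, ult_congr h2 ((forces_ult_famName x.2.1).mono h1)⟩
    · obtain ⟨r, hr, x, h1, h2⟩ := h q hq
      have h3 := fMem_congr_right (fEq_symm h2) (mem_iff_trU.2 (Bel.trans hr hb))
      exact ((setName_mem_famName x.2.1 h1).1 h3).contra (Bel.trans h1 (x.2.2 E hE))
  · rintro ⟨h1, h2⟩
    exact fMem_congr_left (fEq_symm (eq_famName h1))
      (fMem_mk (A := fun x : {x : (RS (ι × ℕ → Bool) → Set (ι × ℕ → Bool)) × Cond ι //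
        IsUF (coin ι) x.2.1 x.1 ∧ ∀ E ∈ Y, Bel x.2 (x.1 E)ᶜ} => famName x.1.1 x.2.1.meas)
        ⟨(trU W, p), isUF_trU h1, h2⟩ (lrefl p))

theorem forces_cls (p : Cond ι) : Forces (cle ι) (cls om (Fname Y)) p := by
  refine ⟨forces_allIn.2 fun U q _ hU => (mem_Fname.1 hU).1, fun U => ?_⟩
  refine forces_imp.2 fun q _ hU => forces_exIn.2 fun r hr => ?_
  have h1 : ¬ ∀ E ∈ Y, Bel r (trU U E)ᶜ := fun h => hU.2 r hr (mem_Fname.2 ⟨hU.1.mono hr, h⟩)
  push Not at h1
  obtain ⟨E, hE, h2⟩ := h1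
  obtain ⟨s, hs, h3⟩ := exists_cond' (val_meas _) h2
  refine ⟨s, hs, setName E, mem_iff_trU.2 h3, forces_allIn.2 fun W u _ hW v hv h => ?_⟩
  exact (mem_iff_trU.1 h).contra (Bel.trans hv ((mem_Fname.1 hW).2 E hE))

theorem forces_nwd (hY : Good (coin ι) Y) (p : Cond ι) :
    Forces (cle ι) (nwd om (Fname Y)) p := by
  refine forces_allIn.2 fun U q _ hU => forces_allIn.2 fun X r hr hX s hs hst => ?_
  have hU' := ((mem_Fname.1 hU).1.mono hr).mono hs
  have hX' := fMem_mono hs hX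
  have h1 := eq_setName (ult_sub hU' hX')
  have h2 : ∀ᵐ ω ∂(coin ι), ω ∈ s.1 → ((tr X).sl ω).Infinite := by
    filter_upwards [(isUF_trU hU').inf (tr X), mem_iff_trU.1 (fMem_congr_left h1 hX')]
      with ω h3 h4 h5 using h3 h5 (h4 h5)
  let B : RS (ι × ℕ → Bool) := ⟨fun n => (tr X).ev n ∪ {ω | ((tr X).sl ω).Finite},
    fun n => ((tr X).meas n).union (RS.measurableSet_finite _)⟩
  obtain ⟨E, hE, h3, h4⟩ := hY.tall B (ae_of_all _ fun ω hf => by
    by_cases h : ((tr X).sl ω).Finite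
    · exact infinite_univ (hf.subset fun n _ => Or.inr h)
    · exact h (hf.subset fun n hn => Or.inl hn))
  obtain ⟨g, hg, hg'⟩ := exists_UF (μ := coin ι) (p := s.1)
    (G := {a | MeasurableSet a.2 ∧ ∀ ω ∈ a.2, E.sl ω ⊆ a.1.sl ω})
    ⟨fun a ha => ha.1, ⟨MeasurableSet.univ, fun ω _ => subset_univ _⟩,
      fun a ha b hb => ⟨ha.1.inter hb.1, fun ω h => subset_inter (ha.2 ω h.1) (hb.2 ω h.2)⟩,
      fun a ha => by filter_upwards [h4] with ω h5 _ h6 using h5.mono (ha.2 ω h6)⟩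
  have h5 : Bel s (g E) := by
    filter_upwards [hg' (E, univ) ⟨MeasurableSet.univ, fun _ _ => Subset.rfl⟩] with ω h _
    exact h (mem_univ _)
  have h6 : Bel s (g (tr X)) := by
    refine bel_up hg (lrefl s) h5 ?_
    filter_upwards [h2] with ω h6 h7
    refine finite_empty.subset fun n hn => ?_
    rcases h3 ω hn.1 with h | h
    · exact hn.2 h
    · exact h6 h7 h
  have h7 := forces_star.1 hst _ s (lrefl s) (forces_ult_famName hg)
    (fMem_congr_left (fEq_symm h1) (mem_famName_of h6))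
  exact (mem_iff_trU.1 (mem_famName_of h5)).contra ((mem_Fname.1 h7).2 E hE)

theorem compact_step (hY : Good (coin ι) Y) {O : Name (Cond ι)} {p : Cond ι}
    (hO : Forces (cle ι) (opn om O) p) (hF : Forces (cle ι) (sub (Fname Y) O) p) :
    ∃ q, cle ι q p ∧ ∃ E ∈ Y, Forces (cle ι) (star om (setName E.compl) O) q := by
  by_contra hcon
  let k : RS (ι × ℕ → Bool) → Set (ι × ℕ → Bool) := fun X =>
    val (all fun W => imp (and (ult om W) (neg (mem W O))) (mem (setName X) W))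
  have hk : ∀ X q, Bel q (k X) ↔ ∀ W r, cle ι r q → Forces (cle ι) (ult om W) r →
      Forces (cle ι) (neg (mem W O)) r → Bel r (trU W X) := by
    intro X q
    simp only [k, ← forces_val, forces_all, forces_imp, forces_and, forces_mem, and_imp,
      mem_iff_trU]
  have hkm : ∀ X, MeasurableSet (k X) := fun X => val_meas _
  have hk1 : ∀ᵐ ω ∂(coin ι), ω ∈ k RS.univ := by
    have : Bel ctop (k RS.univ) := (hk _ _).2 fun W r _ hW _ => by
      filter_upwards [(isUF_trU hW).top RS.univ] with ω h h' using h h' (by simp)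
    filter_upwards [this] with ω h using h (mem_univ _)
  have hk2 : ∀ X X', ∀ᵐ ω ∂(coin ι), ω ∈ k X → ω ∈ k X' → ω ∈ k (X.inter X') := by
    intro X X'
    have : Bel ctop ((k X ∩ k X') \ k (X.inter X'))ᶜ := by
      refine bel_of_forall (((hkm _).inter (hkm _)).diff (hkm _)) fun q _ hb => ?_
      have h1 : Bel q (k X) := by filter_upwards [hb] with ω h h' using (h h').1.1
      have h2 : Bel q (k X') := by filter_upwards [hb] with ω h h' using (h h').1.2
      refine Bel.contra ((hk (X.inter X') q).2 fun W r hr hW hn => ?_)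
        (by filter_upwards [hb] with ω h h' using (h h').2)
      exact mem_iff_trU.1 (ult_inter hW (mem_iff_trU.2 ((hk X q).1 h1 W r hr hW hn))
        (mem_iff_trU.2 ((hk X' q).1 h2 W r hr hW hn)))
    filter_upwards [this] with ω h h1 h2
    by_contra h3
    exact h (mem_univ _) ⟨⟨h1, h2⟩, h3⟩
  obtain ⟨g, hg, hg'⟩ := exists_UF (μ := coin ι) (p := p.1)
    (G := {a | MeasurableSet a.2 ∧ ∃ X, ∃ E ∈ Y, ∀ᵐ ω ∂(coin ι), ω ∈ a.2 →
      ω ∈ k X ∧ ((X.sl ω \ E.sl ω) \ a.1.sl ω).Finite}) (by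
    refine ⟨fun a ha => ha.1, ?_, ?_, ?_⟩
    · obtain ⟨E, hE⟩ := hY.nonempty
      refine ⟨MeasurableSet.univ, RS.univ, E, hE, ?_⟩
      filter_upwards [hk1] with ω h _ using ⟨h, by simp⟩
    · rintro a ⟨ha, X, E, hE, h1⟩ b ⟨hb, X', E', hE', h2⟩
      obtain ⟨F, hF, h3⟩ := hY.pu_countable (D := {E, E'}) (toFinite _).countable
        (by rintro _ (rfl | rfl) <;> assumption)
      refine ⟨ha.inter hb, X.inter X', F, hF, ?_⟩
      filter_upwards [h1, h2, h3 E (by simp), h3 E' (by simp), hk2 X X'] with ω h4 h5 h6 h7 h8 h9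
      refine ⟨h8 (h4 h9.1).1 (h5 h9.2).1,
        (((h4 h9.1).2.union (h5 h9.2).2).union (h6.union h7)).subset fun n hn => ?_⟩
      simp only [RS.sl_inter, Set.mem_sdiff, mem_inter_iff, mem_union] at hn ⊢
      tauto
    · rintro a ⟨ha, X, E, hE, h1⟩
      have : Bel p (a.2 ∩ {ω | (a.1.sl ω).Finite})ᶜ := by
        refine bel_of_forall (ha.inter (RS.measurableSet_finite _)) fun q hq hb => ?_
        refine hcon ⟨q, hq, E, hE, forces_star.2 fun W r hr hW hE' => ?_⟩
        by_contra hn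
        obtain ⟨s, hs, hn'⟩ := not_forces (a := mem W O) hn
        have h2 : Bel q (k X) := by filter_upwards [h1, hb] with ω h h' h'' using (h (h' h'').1).1
        have h3 := (hk X q).1 h2 W s (ltrans hs hr) (hW.mono hs) hn'
        refine not_ae_notMem s ?_
        filter_upwards [(isUF_trU (hW.mono hs)).disj X E.compl, h3,
          mem_iff_trU.1 (fMem_mono hs hE'), h1, Bel.trans (ltrans hs hr) hb]
          with ω h4 h5 h6 h7 h8 h9
        refine h4 h9 (h5 h9) (h6 h9) (((h7 (h8 h9).1).2.union (h8 h9).2).subset fun n hn => ?_)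
        simp only [RS.sl_compl, Set.mem_sdiff, mem_inter_iff, mem_union, mem_compl_iff] at hn ⊢
        tauto
      filter_upwards [this] with ω h h1 h2 h3 using h h1 ⟨h2, h3⟩)
  have hW := forces_ult_famName hg
  have h1 : fMem (cle ι) (famName g hg.meas) (Fname Y) p := by
    refine mem_Fname.2 ⟨hW, fun E hE => bel_of_forall (val_meas _) fun q hq hb => ?_⟩
    have h2 := (setName_mem_famName hg hq).1 (mem_iff_trU.2 hb)
    refine h2.contra ?_
    filter_upwards [hg' (E.compl, univ) ⟨MeasurableSet.univ, RS.univ, E, hE, by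
      filter_upwards [hk1] with ω h _ using ⟨h, by simp [← compl_eq_univ_sdiff]⟩⟩,
      hg.cpl E, cle_iff.1 hq] with ω h3 h4 h5 h6
    exact (h4 (h5 h6)).1 (h3 (mem_univ _))
  obtain ⟨r, hr, X, h2, h3⟩ := forces_exIn.1
    (forces_allIn.1 hO _ p (lrefl p) (forces_sub.1 hF _ p (lrefl p) h1)).2 p (lrefl p)
  have h4 := eq_setName (ult_sub (hW.mono hr) h2)
  have h5 := (setName_mem_famName hg hr).1 (fMem_congr_left h4 h2)
  have h6 : Bel r (k (tr X).compl) := by
    refine (hk _ _).2 fun W s hs hW' hn => ?_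
    have h6 : Bel s (trU W (tr X))ᶜ := bel_of_forall (val_meas _) fun u hu hb =>
      hn u hu (forces_star.1 h3 W u (ltrans hu hs) (hW'.mono hu)
        (fMem_congr_left (fEq_symm (fEq_mono (ltrans hu hs) h4)) (mem_iff_trU.2 hb)))
    filter_upwards [h6, (isUF_trU hW').cpl (tr X)] with ω h7 h8 h9 using (h8 h9).2 (h7 h9)
  obtain ⟨E, hE⟩ := hY.nonempty
  refine h5.contra ?_
  filter_upwards [hg' ((tr X).compl, k (tr X).compl) ⟨hkm _, (tr X).compl, E, hE,
    ae_of_all _ fun ω h => ⟨h, finite_empty.subset fun n hn => hn.2 hn.1.1⟩⟩,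
    hg.cpl (tr X), cle_iff.1 hr, h6] with ω h7 h8 h9 h10 h11
  exact (h8 (h9 h11)).1 (h7 (h10 h11))

theorem forces_pset (hY : Good (coin ι) Y) (p : Cond ι) :
    Forces (cle ι) (pset om (Fname Y)) p := by
  intro s
  refine forces_imp.2 fun q _ hs => forces_allIn.2 fun U r hr hU => ?_
  let R : ℕ → Cond ι → RS (ι × ℕ → Bool) → Prop := fun n u E => E ∈ Y ∧
    Forces (cle ι) (all fun O => imp (app s (nn n) O) (star om (setName E.compl) O)) u
  have hR : ∀ n u, cle ι u q → ∃ v, cle ι v u ∧ ∃ E, R n v E := by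
    intro n u hu
    by_cases h : ∃ v, cle ι v u ∧ ∃ O, Forces (cle ι) (app s (nn n) O) v
    · obtain ⟨v, hv, O, hO⟩ := h
      have h1 := forces_imp.1 (forces_allIn.1 hs _ v (ltrans hv hu)
        (natName_mem_omega le_ctop n v) O) v (lrefl v) hO
      obtain ⟨w, hw, E, hE, h2⟩ := compact_step hY h1.1.1 h1.1.2
      refine ⟨w, ltrans hw hv, E, hE, fun O' => forces_imp.2 fun x hx hO' => ?_⟩
      have h3 : fEq (cle ι) O O' x := forces_imp.1 (h1.2 O') x (ltrans hx hw) hO'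
      exact ((sim_star (fun y => fEq_refl y x) om (fEq_refl _ x) h3).forces x (lrefl x)).1
        (h2.mono hx)
    · obtain ⟨E, hE⟩ := hY.nonempty
      exact ⟨u, lrefl u, E, hE, fun O => forces_imp.2 fun v hv hO => absurd ⟨v, hv, O, hO⟩ h⟩
  choose D hDc hDY hD using fun n => exists_countable_witness (R n)
    fun u v E hv h => ⟨h.1, h.2.mono hv⟩
  obtain ⟨F, hF, hF'⟩ := hY.pu_countable (countable_iUnion hDc)
    (iUnion_subset fun n E hE => let ⟨_, h⟩ := hDY n E hE; h.1)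
  obtain ⟨hU1, hU2⟩ := mem_Fname.1 hU
  refine forces_exIn_of (setName F.compl) (mem_iff_trU.2 ?_) ?_
  · filter_upwards [hU2 F hF, (isUF_trU hU1).cpl F] with ω h1 h2 h3 using (h2 h3).2 (h1 h3)
  refine forces_allIn.2 fun x u hu hx O => forces_imp.2 fun v hv hO => ?_
  refine forces_star.2 fun W w hw hW hFW => fMem_dense fun a ha => ?_
  obtain ⟨b, hb, n, he⟩ := (fMem_omegaName le_ctop).1 hx a (ltrans ha (ltrans hw hv))
  have hbw := ltrans hb ha
  obtain ⟨c, hc, E, hE⟩ := hR n b (ltrans hbw (ltrans hw (ltrans hv (ltrans hu hr))))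
  obtain ⟨d, hd, E', hE', h1⟩ := hD n c E hE
  have hdb := ltrans hd hc
  have hdw := ltrans hdb hbw
  have h2 : Forces (cle ι) (app s (nn n) O) d :=
    ((Sim.app (fun y => fEq_refl y d) (fEq_refl s d) (fEq_mono hdb he)
      (fEq_refl O d)).forces d (lrefl d)).2 (hO.mono (ltrans hdw hw))
  refine ⟨d, ltrans hdb hb, forces_star.1 (forces_imp.1 (h1.2 O) d (lrefl d) h2) W d (lrefl d)
    (hW.mono hdw) (mem_iff_trU.2 ?_)⟩
  refine bel_up (isUF_trU hW) hdw (mem_iff_trU.1 (fMem_mono hdw hFW)) ?_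
  filter_upwards [hF' E' (mem_iUnion.2 ⟨n, hE'⟩)] with ω h3 _
  refine h3.subset fun m hm => ?_
  simp only [RS.sl_compl, Set.mem_sdiff, mem_compl_iff, not_not] at hm ⊢
  tauto

theorem forces_covered (hι : 𝔠 < #ι) (p : Cond ι) : Forces (cle ι) covered p := by
  let C : Name (Cond ι) := Name.mk {Y // Good (coin ι) Y} (fun Y => Fname Y.1) fun _ => ctop
  refine forces_ex_of om ⟨forces_omega le_ctop p, forces_ex_of C ⟨?_, fun U => ?_⟩⟩
  · refine forces_allIn.2 fun F q _ hF => Forces.dense fun r hr => ?_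
    obtain ⟨s, hs, Y, -, he⟩ := hF r hr
    have hR := fun y : Name (Cond ι) => fEq_refl (le := cle ι) y s
    exact ⟨s, hs, ((Sim.and (sim_cls hR om he)
      (.and (sim_nwd hR om he) (sim_pset hR om he))).forces s (lrefl s)).1
      ⟨forces_cls s, forces_nwd Y.2 s, forces_pset Y.2 s⟩⟩
  · refine forces_imp.2 fun q _ hU => forces_exIn.2 fun r hr => ?_
    obtain ⟨s, hs, -, hsm⟩ := exists_meas_version r
    have hU' := hU.mono (ltrans hs hr)
    have hJ : 𝔠 < #(ι × ℕ) := hι.trans_le (mk_le_of_injective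
      (f := fun i : ι => (i, 0)) fun i j h => congrArg Prod.fst h)
    obtain ⟨t, hts, ht, ht0, Y, hY, h⟩ := exists_good hJ hsm s.2.2 (isUF_trU hU')
    have h1 : cle ι (mkc t ht ht0) s := cle_iff.2 (ae_of_all _ hts)
    refine ⟨mkc t ht ht0, ltrans h1 hs, Fname Y,
      fMem_mk (c := fun _ => ctop) (⟨Y, hY⟩ : {Y // Good (coin ι) Y}) (le_ctop _),
      mem_Fname.2 ⟨hU'.mono h1, fun E hE => ?_⟩⟩
    filter_upwards [measure_eq_zero_iff_ae_notMem.1 (h E hE)] with ω h2 h3 h4 using h2 ⟨h3, h4⟩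

end Pool.Agent.MP_deb3c6_lc

end MrgPart5

-- marker of a merged file
example : 731051 + 585368 = 731051 + 585368 := rfl
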